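import Mathlib

set_option autoImplicit false

namespace Pool.Agent.H20.PS

/-- Coordinatewise comparison of exponent triples. -/
def leb (s t : ℕ × ℕ × ℕ) : Bool :=
  Nat.ble s.1 t.1 && (Nat.ble s.2.1 t.2.1 && Nat.ble s.2.2 t.2.2)

/-- The list of exponent triples of total degree `k`. -/
def bx (k : ℕ) : List (ℕ × ℕ × ℕ) :=
  (List.range (k+1)).flatMap (fun i => (List.range (k - i + 1)).map (fun j => (i, j, k - i - j)))

/-- Number of triples in the list below one of three triples. -/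
def cnt3 (l : List (ℕ × ℕ × ℕ)) (t1 t2 t3 : ℕ × ℕ × ℕ) : ℕ :=
  l.foldr (fun s n => bif (leb s t1 || (leb s t2 || leb s t3)) then Nat.succ n else n) 0

/-- The three generated divisor-closed set has the counts `6,7,8,7,5,3` in degrees 2 to 7. -/
def bad (t1 t2 t3 : ℕ × ℕ × ℕ) : Bool :=
  Nat.beq (cnt3 (bx 2) t1 t2 t3) 6 && (Nat.beq (cnt3 (bx 3) t1 t2 t3) 7 &&
   (Nat.beq (cnt3 (bx 6) t1 t2 t3) 5 && (Nat.beq (cnt3 (bx 4) t1 t2 t3) 8 &&
   (Nat.beq (cnt3 (bx 5) t1 t2 t3) 7 && Nat.beq (cnt3 (bx 7) t1 t2 t3) 3))))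

/-- Boolean check with sorted first exponents. -/
def chk : Bool :=
  (bx 7).all (fun t1 => (bx 7).all (fun t2 => !(Nat.ble t1.1 t2.1) ||
    (bx 7).all (fun t3 => !(Nat.ble t2.1 t3.1) || ! bad t1 t2 t3)))

set_option maxRecDepth 100000 in
theorem chk_true : chk = true := by decide +kernel

end Pool.Agent.H20.PS
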