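import Mathlib

set_option autoImplicit false

namespace Pool.Agent.H20.PS

/-- Count of Boolean vectors satisfying a Boolean predicate, by recursion. -/
def cnt : (n : ℕ) → ((Fin n → Bool) → Bool) → ℕ
  | 0, p => (p (fun i => i.elim0)).toNat
  | n+1, p => cnt n (fun x => p (Matrix.vecCons false x)) + cnt n (fun x => p (Matrix.vecCons true x))

theorem cnt_eq (n : ℕ) (p : (Fin n → Bool) → Bool) :
    (Finset.univ.filter (fun x : Fin n → Bool => p x = true)).card = cnt n p := by
  induction n with
  | zero =>
    have : (Finset.univ : Finset (Fin 0 → Bool)) = {fun i => i.elim0} := by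
      ext x
      simp only [Finset.mem_univ, Finset.mem_singleton, true_iff]
      funext i
      exact i.elim0
    rw [this, Finset.filter_singleton]
    simp only [cnt]
    by_cases h : p (fun i => i.elim0) = true
    · simp [h]
    · simp [h]
  | succ n ih =>
    rw [Finset.card_filter, ← (Fin.consEquiv (fun _ : Fin (n+1) => Bool)).sum_comp,
      Fintype.sum_prod_type, Fintype.sum_bool]
    simp only [cnt]
    rw [← ih, ← ih, Finset.card_filter, Finset.card_filter, add_comm]
    rfl

/-- Membership test for the complex, on Boolean vectors. -/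
def Q (b : Fin 10 → Bool) : Bool :=
  (!(b 9) && (!(b 0 && (b 1 && (b 3 && (b 4 && (b 6 && b 7))))) && !(b 2 && (b 5 && b 8)))) ||
  ((!(b 5) && (!(b 0 && (b 2 && (b 6 && b 8))) && !(b 1 && (b 3 && (b 4 && b 7))))) ||
   (!(b 2) && (!(b 3) && !(b 0 && (b 1 && (b 4 && (b 6 && (b 7 && b 8))))))))

/-- Number of true entries. -/
def wt (b : Fin 10 → Bool) : ℕ :=
  (b 0).toNat + ((b 1).toNat + ((b 2).toNat + ((b 3).toNat + ((b 4).toNat + ((b 5).toNat +
    ((b 6).toNat + ((b 7).toNat + ((b 8).toNat + (b 9).toNat))))))))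

set_option maxRecDepth 100000 in
theorem c0 : cnt 10 (fun b => Nat.beq (wt b) 0 && Q b) = 1 := by decide +kernel

set_option maxRecDepth 100000 in
theorem c1 : cnt 10 (fun b => Nat.beq (wt b) 1 && Q b) = 10 := by decide +kernel

set_option maxRecDepth 100000 in
theorem c2 : cnt 10 (fun b => Nat.beq (wt b) 2 && Q b) = 45 := by decide +kernel

set_option maxRecDepth 100000 in
theorem c3 : cnt 10 (fun b => Nat.beq (wt b) 3 && Q b) = 117 := by decide +kernel

set_option maxRecDepth 100000 in
theorem c4 : cnt 10 (fun b => Nat.beq (wt b) 4 && Q b) = 191 := by decide +kernel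

set_option maxRecDepth 100000 in
theorem c5 : cnt 10 (fun b => Nat.beq (wt b) 5 && Q b) = 199 := by decide +kernel

set_option maxRecDepth 100000 in
theorem c6 : cnt 10 (fun b => Nat.beq (wt b) 6 && Q b) = 126 := by decide +kernel

set_option maxRecDepth 100000 in
theorem c7 : cnt 10 (fun b => Nat.beq (wt b) 7 && Q b) = 40 := by decide +kernel

/-- Indicator vector of a subset of `Fin 10`. -/
def ind (F : Finset (Fin 10)) : Fin 10 → Bool := fun i => decide (i ∈ F)

theorem wt_ind (F : Finset (Fin 10)) : wt (ind F) = F.card := by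
  have h1 : F.card = ∑ i : Fin 10, (if i ∈ F then 1 else 0) := by
    rw [← Finset.card_filter]
    congr 1
    ext i
    simp
  have h2 : ∀ i : Fin 10, (ind F i).toNat = if i ∈ F then 1 else 0 := by
    intro i
    by_cases h : i ∈ F
    · simp [ind, h]
    · simp [ind, h]
  rw [h1]
  simp only [wt, h2]
  simp only [Fin.sum_univ_succ, Fin.sum_univ_zero]
  rfl

/-- Counting subsets of `Fin 10` by Boolean vectors. -/
theorem card_eq_cnt (D : Finset (Finset (Fin 10))) (hD : ∀ F, F ∈ D ↔ Q (ind F) = true) (i : ℕ) :
    (D.filter (fun F => F.card = i)).card = cnt 10 (fun b => Nat.beq (wt b) i && Q b) := by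
  rw [← cnt_eq]
  refine Finset.card_nbij' (fun F => ind F) (fun b => Finset.univ.filter (fun x => b x = true))
    ?_ ?_ ?_ ?_
  · intro F hF
    simp only [Finset.coe_filter, Set.mem_ofPred_eq, hD] at hF
    simp only [Finset.coe_filter, Finset.mem_univ, true_and, Set.mem_ofPred_eq,
      Bool.and_eq_true]
    refine ⟨?_, hF.1⟩
    rw [wt_ind, hF.2]
    exact Nat.beq_refl i
  · intro b hb
    simp only [Finset.coe_filter, Finset.mem_univ, true_and, Set.mem_ofPred_eq,
      Bool.and_eq_true] at hb
    have hi : ind (Finset.univ.filter (fun x => b x = true)) = b := by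
      funext x
      simp [ind]
    simp only [Finset.coe_filter, Set.mem_ofPred_eq, hD, hi]
    refine ⟨hb.2, ?_⟩
    rw [← wt_ind, hi]
    exact Nat.eq_of_beq_eq_true hb.1
  · intro F _
    ext x
    simp [ind]
  · intro b _
    funext x
    simp [ind]

end Pool.Agent.H20.PS
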