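import Mathlib
import Pool.Agent.H20.PSCheck

set_option autoImplicit false

namespace Pool.Agent.H20.PS

theorem leb_iff (s t : ℕ × ℕ × ℕ) :
    leb s t = true ↔ s.1 ≤ t.1 ∧ s.2.1 ≤ t.2.1 ∧ s.2.2 ≤ t.2.2 := by
  simp only [leb, Bool.and_eq_true, Nat.ble_eq]

theorem mem_bx (k : ℕ) (s : ℕ × ℕ × ℕ) : s ∈ bx k ↔ s.1 + s.2.1 + s.2.2 = k := by
  obtain ⟨a, b, c⟩ := s
  simp only [bx, List.mem_flatMap, List.mem_map, List.mem_range, Prod.mk.injEq]
  constructor
  · rintro ⟨i, hi, j, hj, rfl, rfl, rfl⟩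
    omega
  · intro h
    exact ⟨a, by omega, b, by omega, rfl, rfl, by omega⟩

theorem cnt3_eq (l : List (ℕ × ℕ × ℕ)) (t1 t2 t3 : ℕ × ℕ × ℕ) :
    cnt3 l t1 t2 t3 = (l.filter (fun s => leb s t1 || (leb s t2 || leb s t3))).length := by
  induction l with
  | nil => rfl
  | cons s l ih =>
    have h : cnt3 (s :: l) t1 t2 t3 =
      bif (leb s t1 || (leb s t2 || leb s t3)) then Nat.succ (cnt3 l t1 t2 t3)
        else cnt3 l t1 t2 t3 := rfl
    rw [h, List.filter_cons, ih]
    cases hb : (leb s t1 || (leb s t2 || leb s t3))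
    · simp
    · simp

theorem cnt3_swap12 (l : List (ℕ × ℕ × ℕ)) (t1 t2 t3 : ℕ × ℕ × ℕ) :
    cnt3 l t1 t2 t3 = cnt3 l t2 t1 t3 := by
  unfold cnt3
  congr 1
  funext s n
  cases leb s t1 <;> cases leb s t2 <;> cases leb s t3 <;> rfl

theorem cnt3_swap23 (l : List (ℕ × ℕ × ℕ)) (t1 t2 t3 : ℕ × ℕ × ℕ) :
    cnt3 l t1 t2 t3 = cnt3 l t1 t3 t2 := by
  unfold cnt3
  congr 1
  funext s n
  cases leb s t1 <;> cases leb s t2 <;> cases leb s t3 <;> rfl

theorem bad_swap12 (t1 t2 t3 : ℕ × ℕ × ℕ) : bad t1 t2 t3 = bad t2 t1 t3 := by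
  unfold bad
  simp only [cnt3_swap12 _ t1 t2 t3]

theorem bad_swap23 (t1 t2 t3 : ℕ × ℕ × ℕ) : bad t1 t2 t3 = bad t1 t3 t2 := by
  unfold bad
  simp only [cnt3_swap23 _ t1 t2 t3]

theorem sorted_not_bad (t1 t2 t3 : ℕ × ℕ × ℕ) (h1 : t1 ∈ bx 7) (h2 : t2 ∈ bx 7) (h3 : t3 ∈ bx 7)
    (h12 : t1.1 ≤ t2.1) (h23 : t2.1 ≤ t3.1) : bad t1 t2 t3 = false := by
  have h := chk_true
  unfold chk at h
  have ha := List.all_eq_true.mp h t1 h1
  have hb := List.all_eq_true.mp ha t2 h2
  have e12 : Nat.ble t1.1 t2.1 = true := Nat.ble_eq.mpr h12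
  have e23 : Nat.ble t2.1 t3.1 = true := Nat.ble_eq.mpr h23
  rw [e12] at hb
  simp only [Bool.not_true, Bool.false_or] at hb
  have hc := List.all_eq_true.mp hb t3 h3
  rw [e23] at hc
  simpa using hc

theorem not_bad (t1 t2 t3 : ℕ × ℕ × ℕ) (h1 : t1 ∈ bx 7) (h2 : t2 ∈ bx 7) (h3 : t3 ∈ bx 7) :
    bad t1 t2 t3 = false := by
  rcases le_total t1.1 t2.1 with h12 | h12 <;> rcases le_total t2.1 t3.1 with h23 | h23 <;>
    rcases le_total t1.1 t3.1 with h13 | h13
  · exact sorted_not_bad _ _ _ h1 h2 h3 h12 h23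
  · exact sorted_not_bad _ _ _ h1 h2 h3 h12 h23
  · rw [bad_swap23]; exact sorted_not_bad _ _ _ h1 h3 h2 h13 h23
  · rw [bad_swap23, bad_swap12]; exact sorted_not_bad _ _ _ h3 h1 h2 h13 h12
  · rw [bad_swap12]; exact sorted_not_bad _ _ _ h2 h1 h3 h12 h13
  · rw [bad_swap12, bad_swap23]; exact sorted_not_bad _ _ _ h2 h3 h1 h23 h13
  · rw [bad_swap12, bad_swap23, bad_swap12]; exact sorted_not_bad _ _ _ h3 h2 h1 h23 h12
  · rw [bad_swap12, bad_swap23, bad_swap12]; exact sorted_not_bad _ _ _ h3 h2 h1 h23 h12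

theorem nodup_bx (k : ℕ) : (bx k).Nodup := by
  unfold bx
  rw [List.nodup_flatMap]
  refine ⟨?_, ?_⟩
  · intro i _
    refine List.Nodup.map ?_ List.nodup_range
    intro j j' h
    simp only [Prod.mk.injEq, true_and] at h
    exact h.1
  · refine List.Nodup.pairwise_of_forall_ne List.nodup_range ?_
    intro i _ j _ hij
    simp only [Function.onFun, List.disjoint_left, List.mem_map]
    rintro s ⟨x, _, rfl⟩ ⟨y, _, h⟩
    simp only [Prod.mk.injEq] at h
    exact hij h.1.symm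

/-- An exponent vector of total degree one is a unit vector. -/
theorem unit_of_sum_one {r : ℕ} (u : Fin r → ℕ) (h : ∑ i, u i = 1) :
    ∃ a, u = Pi.single a 1 := by
  have h0 : ∃ a ∈ Finset.univ, u a ≠ 0 := by
    by_contra hc
    push Not at hc
    rw [Finset.sum_eq_zero hc] at h
    exact absurd h (by norm_num)
  obtain ⟨a, _, ha⟩ := h0
  refine ⟨a, ?_⟩
  have h1 := Finset.add_sum_erase Finset.univ u (Finset.mem_univ a)
  rw [h] at h1
  have h2 : u a = 1 := by omega
  have h3 : ∑ x ∈ Finset.univ.erase a, u x = 0 := by omega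
  rw [Finset.sum_eq_zero_iff] at h3
  funext i
  by_cases hi : i = a
  · subst hi
    simp [h2]
  · rw [Pi.single_eq_of_ne hi]
    exact h3 i (Finset.mem_erase.mpr ⟨hi, Finset.mem_univ i⟩)

/-- No pure order ideal of monomials has degree counts `1,3,6,7,8,7,5,3`. -/
theorem no_pure (r : ℕ) (M : Finset (Fin r → ℕ))
    (hdown : ∀ μ ∈ M, ∀ ν : Fin r → ℕ, ν ≤ μ → ν ∈ M)
    (hpure : ∀ μ ∈ M, ∀ ν ∈ M, (∀ κ ∈ M, μ ≤ κ → κ = μ) → (∀ κ ∈ M, ν ≤ κ → κ = ν) →
        ∑ i, μ i = ∑ i, ν i)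
    (h1 : (M.filter (fun μ => ∑ i, μ i = 1)).card = 3)
    (h2 : (M.filter (fun μ => ∑ i, μ i = 2)).card = 6)
    (h3 : (M.filter (fun μ => ∑ i, μ i = 3)).card = 7)
    (h4 : (M.filter (fun μ => ∑ i, μ i = 4)).card = 8)
    (h5 : (M.filter (fun μ => ∑ i, μ i = 5)).card = 7)
    (h6 : (M.filter (fun μ => ∑ i, μ i = 6)).card = 5)
    (h7 : (M.filter (fun μ => ∑ i, μ i = 7)).card = 3)
    (h8 : ∀ k, 7 < k → (M.filter (fun μ => ∑ i, μ i = k)).card = 0) : False := by
  classical
  -- degree bound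
  have hdeg : ∀ μ ∈ M, ∑ i, μ i ≤ 7 := by
    intro μ hμ
    by_contra hc
    push Not at hc
    have := h8 _ hc
    rw [Finset.card_eq_zero] at this
    have hm : μ ∈ M.filter (fun κ => ∑ i, κ i = ∑ i, μ i) := Finset.mem_filter.mpr ⟨hμ, rfl⟩
    rw [this] at hm
    exact absurd hm (Finset.notMem_empty _)
  obtain ⟨x, y, z, hxy, hxz, hyz, hT⟩ := Finset.card_eq_three.mp h7
  obtain ⟨u, v, w, huv, huw, hvw, hU⟩ := Finset.card_eq_three.mp h1
  have hx : x ∈ M.filter (fun μ => ∑ i, μ i = 7) := by rw [hT]; simp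
  have hy : y ∈ M.filter (fun μ => ∑ i, μ i = 7) := by rw [hT]; simp
  have hz : z ∈ M.filter (fun μ => ∑ i, μ i = 7) := by rw [hT]; simp
  have hu : u ∈ M.filter (fun μ => ∑ i, μ i = 1) := by rw [hU]; simp
  have hv : v ∈ M.filter (fun μ => ∑ i, μ i = 1) := by rw [hU]; simp
  have hw : w ∈ M.filter (fun μ => ∑ i, μ i = 1) := by rw [hU]; simp
  rw [Finset.mem_filter] at hx hy hz hu hv hw
  obtain ⟨a, rfl⟩ := unit_of_sum_one u hu.2
  obtain ⟨b, rfl⟩ := unit_of_sum_one v hv.2
  obtain ⟨c, rfl⟩ := unit_of_sum_one w hw.2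
  have hab : a ≠ b := fun h => huv (by rw [h])
  have hac : a ≠ c := fun h => huw (by rw [h])
  have hbc : b ≠ c := fun h => hvw (by rw [h])
  -- supports
  have hsupp : ∀ μ ∈ M, ∀ i, i ≠ a → i ≠ b → i ≠ c → μ i = 0 := by
    intro μ hμ i hia hib hic
    by_contra hne
    have hle : (Pi.single i 1 : Fin r → ℕ) ≤ μ := by
      intro j
      by_cases hj : j = i
      · subst hj
        rw [Pi.single_eq_same]
        exact Nat.one_le_iff_ne_zero.mpr hne
      · rw [Pi.single_eq_of_ne hj]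
        exact Nat.zero_le _
    have hin := hdown μ hμ _ hle
    have hs : ∑ j, (Pi.single i 1 : Fin r → ℕ) j = 1 := by simp
    have : (Pi.single i 1 : Fin r → ℕ) ∈ M.filter (fun μ => ∑ i, μ i = 1) :=
      Finset.mem_filter.mpr ⟨hin, hs⟩
    rw [hU] at this
    simp only [Finset.mem_insert, Finset.mem_singleton] at this
    have hinj : ∀ j : Fin r, (Pi.single i 1 : Fin r → ℕ) = Pi.single j 1 → i = j := by
      intro j hj
      by_contra hij
      have := congrFun hj i
      rw [Pi.single_eq_same, Pi.single_eq_of_ne hij] at this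
      exact absurd this (by norm_num)
    rcases this with h | h | h
    · exact hia (hinj _ h)
    · exact hib (hinj _ h)
    · exact hic (hinj _ h)
  -- the projection
  have hsum : ∀ μ : Fin r → ℕ, (∀ i, i ≠ a → i ≠ b → i ≠ c → μ i = 0) →
      ∑ i, μ i = μ a + μ b + μ c := by
    intro μ hμ
    have hsub : ∑ i ∈ ({a, b, c} : Finset (Fin r)), μ i = ∑ i, μ i := by
      refine Finset.sum_subset (Finset.subset_univ _) ?_
      intro i _ hi
      simp only [Finset.mem_insert, Finset.mem_singleton, not_or] at hi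
      exact hμ i hi.1 hi.2.1 hi.2.2
    rw [← hsub, Finset.sum_insert, Finset.sum_insert, Finset.sum_singleton, ← add_assoc]
    · simpa using hbc
    · simp only [Finset.mem_insert, Finset.mem_singleton, not_or]
      exact ⟨hab, hac⟩
  -- everything is below one of the three tops
  have hmaxx : ∀ t ∈ M, ∑ i, t i = 7 → ∀ κ ∈ M, t ≤ κ → κ = t := by
    intro t ht hts κ hκ hle
    have hk := hdeg κ hκ
    have hge : ∑ i, t i ≤ ∑ i, κ i := Finset.sum_le_sum (fun i _ => hle i)
    have heq : ∑ i, t i = ∑ i, κ i := by omega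
    have := (Finset.sum_eq_sum_iff_of_le (fun i _ => hle i)).mp heq
    funext i
    exact (this i (Finset.mem_univ i)).symm
  have hcov : ∀ μ ∈ M, μ ≤ x ∨ μ ≤ y ∨ μ ≤ z := by
    intro μ hμ
    obtain ⟨κ, hle, hκ⟩ := Finset.exists_le_maximal M hμ
    have hκM : κ ∈ M := hκ.prop
    have hκmax : ∀ t ∈ M, κ ≤ t → t = κ := by
      intro t ht hkt
      exact le_antisymm (hκ.le_of_ge ht hkt) hkt
    have h7' := hpure κ hκM x hx.1 hκmax (hmaxx x hx.1 hx.2)
    rw [hx.2] at h7'
    have : κ ∈ M.filter (fun μ => ∑ i, μ i = 7) := Finset.mem_filter.mpr ⟨hκM, h7'⟩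
    rw [hT] at this
    simp only [Finset.mem_insert, Finset.mem_singleton] at this
    rcases this with rfl | rfl | rfl
    · exact Or.inl hle
    · exact Or.inr (Or.inl hle)
    · exact Or.inr (Or.inr hle)
  let φ : (Fin r → ℕ) → ℕ × ℕ × ℕ := fun μ => (μ a, μ b, μ c)
  have hle_iff : ∀ μ ∈ M, ∀ t ∈ M, (leb (φ μ) (φ t) = true ↔ μ ≤ t) := by
    intro μ hμ t ht
    rw [leb_iff]
    constructor
    · rintro ⟨ha, hb, hc⟩ i
      by_cases hia : i = a
      · subst hia; exact ha
      · by_cases hib : i = b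
        · subst hib; exact hb
        · by_cases hic : i = c
          · subst hic; exact hc
          · rw [hsupp μ hμ i hia hib hic]
            exact Nat.zero_le _
    · intro h
      exact ⟨h a, h b, h c⟩
  have hcount : ∀ k, (M.filter (fun μ => ∑ i, μ i = k)).card =
      cnt3 (bx k) (φ x) (φ y) (φ z) := by
    intro k
    rw [cnt3_eq, ← List.toFinset_card_of_nodup ((nodup_bx k).filter _)]
    refine Finset.card_bij (fun μ _ => φ μ) ?_ ?_ ?_
    · intro μ hμ
      rw [Finset.mem_filter] at hμ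
      rw [List.mem_toFinset, List.mem_filter, mem_bx]
      refine ⟨?_, ?_⟩
      · rw [← hμ.2, hsum μ (hsupp μ hμ.1)]
      · have := hcov μ hμ.1
        simp only [Bool.or_eq_true]
        rw [hle_iff μ hμ.1 x hx.1, hle_iff μ hμ.1 y hy.1, hle_iff μ hμ.1 z hz.1]
        exact this
    · intro μ hμ ν hν heq
      rw [Finset.mem_filter] at hμ hν
      simp only [φ, Prod.mk.injEq] at heq
      funext i
      by_cases hia : i = a
      · subst hia; exact heq.1
      · by_cases hib : i = b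
        · subst hib; exact heq.2.1
        · by_cases hic : i = c
          · subst hic; exact heq.2.2
          · rw [hsupp μ hμ.1 i hia hib hic, hsupp ν hν.1 i hia hib hic]
    · intro s hs
      rw [List.mem_toFinset, List.mem_filter, mem_bx] at hs
      obtain ⟨hs1, hs2⟩ := hs
      let ν : Fin r → ℕ := fun i => if i = a then s.1 else if i = b then s.2.1 else
        if i = c then s.2.2 else 0
      have hνa : ν a = s.1 := by simp [ν]
      have hνb : ν b = s.2.1 := by simp [ν, hab.symm]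
      have hνc : ν c = s.2.2 := by simp [ν, hac.symm, hbc.symm]
      have hν0 : ∀ i, i ≠ a → i ≠ b → i ≠ c → ν i = 0 := by
        intro i hia hib hic
        simp [ν, hia, hib, hic]
      have hνle : ∀ t ∈ M, leb s (φ t) = true → ν ≤ t := by
        intro t ht hl i
        rw [leb_iff] at hl
        by_cases hia : i = a
        · subst hia; rw [hνa]; exact hl.1
        · by_cases hib : i = b
          · subst hib; rw [hνb]; exact hl.2.1
          · by_cases hic : i = c
            · subst hic; rw [hνc]; exact hl.2.2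
            · rw [hν0 i hia hib hic]
              exact Nat.zero_le _
      have hνM : ν ∈ M := by
        simp only [Bool.or_eq_true] at hs2
        rcases hs2 with h | h | h
        · exact hdown x hx.1 ν (hνle x hx.1 h)
        · exact hdown y hy.1 ν (hνle y hy.1 h)
        · exact hdown z hz.1 ν (hνle z hz.1 h)
      refine ⟨ν, ?_, ?_⟩
      · rw [Finset.mem_filter]
        refine ⟨hνM, ?_⟩
        rw [hsum ν hν0, hνa, hνb, hνc]
        exact hs1
      · simp only [φ, hνa, hνb, hνc]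
  have hbad : bad (φ x) (φ y) (φ z) = true := by
    unfold bad
    rw [← hcount, ← hcount, ← hcount, ← hcount, ← hcount, ← hcount, h2, h3, h4, h5, h6, h7]
    rfl
  have hmem : ∀ t ∈ M, ∑ i, t i = 7 → φ t ∈ bx 7 := by
    intro t ht hts
    rw [mem_bx, ← hts, hsum t (hsupp t ht)]
  have := not_bad (φ x) (φ y) (φ z) (hmem x hx.1 hx.2) (hmem y hy.1 hy.2) (hmem z hz.1 hz.2)
  rw [this] at hbad
  exact absurd hbad (by decide)

end Pool.Agent.H20.PS
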