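import Mathlib

set_option autoImplicit false

/-!
# Loopless multigraphs, cuts, contractions, bricks and solid matching covered graphs
-/

namespace Pool.Agent.H20.Solid

/-- A loopless multigraph with vertex type `V` and edge type `E`. -/
structure MGraph (V E : Type) where
  /-- the unordered pair of ends of an edge -/
  ends : E → Sym2 V
  loopless : ∀ e, ¬ (ends e).IsDiag

namespace MGraph

variable {V E : Type} (G : MGraph V E)

/-- `a` and `b` are joined by an edge. -/
def Adj (a b : V) : Prop := ∃ e, G.ends e = s(a, b)

/-- The graph is connected: it has a vertex and any two vertices are joined by a walk. -/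
def Connected : Prop := Nonempty V ∧ ∀ a b, Relation.ReflTransGen G.Adj a b

/-- Every vertex is an end of exactly three edges. -/
def Cubic : Prop := ∀ v, {e | v ∈ G.ends e}.ncard = 3

/-- No two distinct edges have the same ends. -/
def Simple : Prop := Function.Injective G.ends

/-- Some two-colouring of the vertices gives the two ends of every edge different colours. -/
def Bipartite : Prop := ∃ c : V → Bool, ∀ a b, G.Adj a b → c a ≠ c b

/-- `M` is a perfect matching: every vertex is an end of exactly one edge of `M`. -/
def IsPerfectMatching (M : Set E) : Prop := ∀ v, ∃! e, e ∈ M ∧ v ∈ G.ends e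

/-- At least two vertices, connected, and every edge lies in some perfect matching. -/
def MatchingCovered : Prop :=
  2 ≤ Nat.card V ∧ G.Connected ∧ ∀ e, ∃ M, G.IsPerfectMatching M ∧ e ∈ M

/-- The set of edges with exactly one end in `X`. -/
def cut (X : Set V) : Set E := {e | ∃ a ∈ X, ∃ b ∉ X, G.ends e = s(a, b)}

open Classical in
/-- The map that shrinks `X` to the single new vertex `none`. -/
noncomputable def shrink (X : Set V) (v : V) : Option {v : V // v ∉ X} :=
  if h : v ∈ X then none else some ⟨v, h⟩

/-- The contraction `G/X`: `X` is shrunk to a single vertex, the edges with both ends in `X` are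
deleted and all other edges, parallel ones included, are kept. -/
noncomputable def contract (X : Set V) :
    MGraph (Option {v : V // v ∉ X}) {e : E // ∃ v ∈ G.ends e, v ∉ X} where
  ends e := (G.ends e.1).map (shrink X)
  loopless e := by
    obtain ⟨e, v, hv, hvX⟩ := e
    obtain ⟨w, hw⟩ := hv
    intro h
    have hl := G.loopless e
    simp only [hw] at hl h
    rw [Sym2.map_mk] at h
    rw [Sym2.mk_isDiag_iff] at hl h
    unfold shrink at h
    rw [dif_neg hvX] at h
    by_cases hwX : w ∈ X
    · rw [dif_pos hwX] at h
      exact absurd h (by simp)
    · rw [dif_neg hwX] at h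
      simp only [Option.some.injEq, Subtype.mk.injEq] at h
      exact hl h

/-- The cut of `X` meets every perfect matching in exactly one edge. -/
def Tight (X : Set V) : Prop := ∀ M, G.IsPerfectMatching M → (M ∩ G.cut X).ncard = 1

/-- Both contractions of the cut of `X` are matching covered. -/
def Separating (X : Set V) : Prop :=
  (G.contract X).MatchingCovered ∧ (G.contract Xᶜ).MatchingCovered

/-- The cut of `X` is trivial: `X` or its complement has only one vertex. -/
def Trivial (X : Set V) : Prop := X.ncard = 1 ∨ Xᶜ.ncard = 1

/-- A brick: a nonbipartite matching covered graph without nontrivial tight cut. -/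
def Brick : Prop :=
  G.MatchingCovered ∧ ¬ G.Bipartite ∧ ∀ X : Set V, Odd X.ncard → G.Tight X → Trivial X

/-- Every separating cut is tight. -/
def SolidGraph : Prop := ∀ X : Set V, Odd X.ncard → G.Separating X → G.Tight X

/-- `c` runs through the vertices of an odd cycle of length `n`. -/
def IsOddCycle (n : ℕ) (c : ZMod n → V) : Prop :=
  Odd n ∧ Function.Injective c ∧ ∀ i, G.Adj (c i) (c (i + 1))

/-- Every two odd cycles have a common vertex. -/
def OddIntercyclic : Prop :=
  ∀ (m n : ℕ) (c : ZMod m → V) (d : ZMod n → V), G.IsOddCycle m c → G.IsOddCycle n d →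
    ∃ i j, c i = d j

end MGraph

end Pool.Agent.H20.Solid
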