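import Pool.Agent.H20.SolidSep

set_option autoImplicit false

namespace Pool.Agent.H20.Solid

/-- The ends of the eighteen edges. -/
def es : Fin 18 → Fin 12 × Fin 12 :=
  ![(0, 10), (0, 4), (0, 5), (1, 9), (1, 7), (1, 5), (2, 11), (2, 4), (2, 5), (3, 6), (3, 9), (3, 11), (4, 7), (6, 8), (6, 7), (8, 10), (8, 9), (10, 11)]

/-- The cubic graph on twelve vertices. -/
def G12 : MGraph (Fin 12) (Fin 18) where
  ends e := s((es e).1, (es e).2)
  loopless := by decide

/-- The three edges at a vertex. -/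
def inc : Fin 12 → Fin 18 × Fin 18 × Fin 18 :=
  ![(0, 1, 2), (3, 4, 5), (6, 7, 8), (9, 10, 11), (1, 7, 12), (2, 5, 8), (9, 13, 14), (4, 12, 14), (13, 15, 16), (3, 10, 16), (0, 15, 17), (6, 11, 17)]

/-- The perfect matchings. -/
def L : List (List (Fin 18)) :=
  [[0, 3, 8, 11, 12, 13],
   [0, 5, 6, 9, 12, 16],
   [0, 5, 6, 10, 12, 13],
   [0, 5, 7, 11, 14, 16],
   [1, 3, 8, 11, 14, 15],
   [1, 4, 8, 9, 16, 17],
   [1, 4, 8, 10, 13, 17],
   [1, 5, 6, 10, 14, 15],
   [2, 3, 6, 9, 12, 15],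
   [2, 3, 7, 11, 14, 15],
   [2, 4, 7, 9, 16, 17],
   [2, 4, 7, 10, 13, 17]]

/-- The perfect matchings in the form used by the kernel check: edge mask, list of ends. -/
def L' : List (ℕ × List (ℕ × ℕ)) :=
  [(14601, [(0, 10), (1, 9), (2, 5), (3, 11), (4, 7), (6, 8)]),
   (70241, [(0, 10), (1, 5), (2, 11), (3, 6), (4, 7), (8, 9)]),
   (13409, [(0, 10), (1, 5), (2, 11), (3, 9), (4, 7), (6, 8)]),
   (84129, [(0, 10), (1, 5), (2, 4), (3, 11), (6, 7), (8, 9)]),
   (51466, [(0, 4), (1, 9), (2, 5), (3, 11), (6, 7), (8, 10)]),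
   (197394, [(0, 4), (1, 7), (2, 5), (3, 6), (8, 9), (10, 11)]),
   (140562, [(0, 4), (1, 7), (2, 5), (3, 9), (6, 8), (10, 11)]),
   (50274, [(0, 4), (1, 5), (2, 11), (3, 9), (6, 7), (8, 10)]),
   (37452, [(0, 5), (1, 9), (2, 11), (3, 6), (4, 7), (8, 10)]),
   (51340, [(0, 5), (1, 9), (2, 4), (3, 11), (6, 7), (8, 10)]),
   (197268, [(0, 5), (1, 7), (2, 4), (3, 6), (8, 9), (10, 11)]),
   (140436, [(0, 5), (1, 7), (2, 4), (3, 9), (6, 8), (10, 11)])]

/-- Conversion of a list of edges. -/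
def conv (m : List (Fin 18)) : ℕ × List (ℕ × ℕ) :=
  (m.foldr (fun (e : Fin 18) (acc : ℕ) => Nat.lor (2 ^ e.val) acc) 0,
    m.map (fun (e : Fin 18) => ((es e).1.val, (es e).2.val)))

theorem L'_eq : L' = L.map conv := by decide +kernel

theorem mem_inc (v : Fin 12) (e : Fin 18) :
    v ∈ G12.ends e ↔ (e = (inc v).1 ∨ e = (inc v).2.1 ∨ e = (inc v).2.2) := by
  have h : ∀ v e, v ∈ G12.ends e ↔ (e = (inc v).1 ∨ e = (inc v).2.1 ∨ e = (inc v).2.2) := by
    unfold G12
    simp only [Sym2.mem_iff]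
    decide +kernel
  exact h v e

theorem inc_ne (v : Fin 12) : (inc v).1 ≠ (inc v).2.1 ∧ (inc v).1 ≠ (inc v).2.2 ∧
    (inc v).2.1 ≠ (inc v).2.2 := by
  revert v
  decide +kernel

/-- Exactly one of three Booleans is true. -/
def oneHot (a b c : Bool) : Bool :=
  (a && (!b && !c)) || ((!a && (b && !c)) || (!a && (!b && c)))

theorem oneHot_ex (a b c : Bool) (h : oneHot a b c = true) :
    ∃ t : Fin 3, a = decide (t = 0) ∧ b = decide (t = 1) ∧ c = decide (t = 2) := by
  revert h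
  cases a <;> cases b <;> cases c <;> decide

/-- Boolean form of the perfect matching condition. -/
def pmB (y : Fin 18 → Bool) : Bool :=
  (List.finRange 12).all (fun v => oneHot (y (inc v).1) (y (inc v).2.1) (y (inc v).2.2))

/-- Assembling a Boolean vector from choices at five independent vertices. -/
def mk (t0 t1 t2 t3 t8 : Fin 3) (b12 b14 b17 : Bool) : Fin 18 → Bool :=
  ![decide (t0 = 0), decide (t0 = 1), decide (t0 = 2),
    decide (t1 = 0), decide (t1 = 1), decide (t1 = 2),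
    decide (t2 = 0), decide (t2 = 1), decide (t2 = 2),
    decide (t3 = 0), decide (t3 = 1), decide (t3 = 2),
    b12, decide (t8 = 0), b14, decide (t8 = 1), decide (t8 = 2), b17]

/-- The vector is the indicator of a listed matching. -/
def inL (y : Fin 18 → Bool) : Bool :=
  L.any (fun m => (List.finRange 18).all (fun e => y e == m.elem e))

theorem enum_check : ∀ (t0 t1 t2 t3 t8 : Fin 3) (b12 b14 b17 : Bool),
    pmB (mk t0 t1 t2 t3 t8 b12 b14 b17) = true → inL (mk t0 t1 t2 t3 t8 b12 b14 b17) = true := by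
  decide +kernel

theorem pmB_inL (y : Fin 18 → Bool) (h : pmB y = true) : inL y = true := by
  have hv : ∀ v : Fin 12, oneHot (y (inc v).1) (y (inc v).2.1) (y (inc v).2.2) = true := by
    intro v
    exact List.all_eq_true.mp h v (List.mem_finRange v)
  obtain ⟨t0, a0, b0, c0⟩ := oneHot_ex _ _ _ (hv 0)
  obtain ⟨t1, a1, b1, c1⟩ := oneHot_ex _ _ _ (hv 1)
  obtain ⟨t2, a2, b2, c2⟩ := oneHot_ex _ _ _ (hv 2)
  obtain ⟨t3, a3, b3, c3⟩ := oneHot_ex _ _ _ (hv 3)
  obtain ⟨t8, a8, b8, c8⟩ := oneHot_ex _ _ _ (hv 8)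
  have hy : y = mk t0 t1 t2 t3 t8 (y 12) (y 14) (y 17) := by
    funext e
    fin_cases e
    · exact a0
    · exact b0
    · exact c0
    · exact a1
    · exact b1
    · exact c1
    · exact a2
    · exact b2
    · exact c2
    · exact a3
    · exact b3
    · exact c3
    · rfl
    · exact a8
    · rfl
    · exact b8
    · exact c8
    · rfl
  rw [hy] at h ⊢
  exact enum_check _ _ _ _ _ _ _ _ h

/-- The `i`-th binary digit. -/
def bit (x i : ℕ) : ℕ := Nat.mod (Nat.div x (Nat.pow 2 i)) 2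

/-- Number of cut edges in a list of edges. -/
def cc (m : List (ℕ × ℕ)) (x : ℕ) : ℕ :=
  m.foldr (fun p acc => Nat.add (Nat.mod (Nat.add (bit x p.1) (bit x p.2)) 2) acc) 0

/-- Union of the matchings having exactly one edge in the cut. -/
def un (x : ℕ) : ℕ :=
  L'.foldr (fun p acc => bif Nat.beq (cc p.2 x) 1 then Nat.lor p.1 acc else acc) 0

/-- Number of binary digits one among the first twelve. -/
def pop (x : ℕ) : ℕ := (List.range 12).foldr (fun i acc => Nat.add (bit x i) acc) 0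

/-- The check for one vertex subset. -/
def chkX (x : ℕ) : Bool :=
  bif (Nat.beq (Nat.mod (pop x) 2) 1 && (!(Nat.beq (pop x) 1) && !(Nat.beq (pop x) 11))) then
    (List.range 18).any (fun e => Nat.beq (bit (un x) e) 0)
  else true

set_option maxRecDepth 100000 in
theorem chk_all : (List.range 64).all (fun a => (List.range 64).all (fun b =>
    chkX (Nat.add (Nat.mul 64 a) b))) = true := by decide +kernel

end Pool.Agent.H20.Solid
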