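import Pool.Agent.H20.SolidG12

set_option autoImplicit false

namespace Pool.Agent.H20.Solid

open MGraph

theorem bit_eq (x i : ℕ) : bit x i = (x.testBit i).toNat := by
  rw [Nat.toNat_testBit]
  rfl

open Classical in
/-- The binary code of a vertex subset. -/
noncomputable def code (X : Set (Fin 12)) : ℕ := Nat.ofBits (fun i : Fin 12 => decide (i ∈ X))

open Classical in
theorem bit_code (X : Set (Fin 12)) (i : Fin 12) :
    bit (code X) i = if i ∈ X then 1 else 0 := by
  rw [bit_eq]
  unfold code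
  rw [Nat.testBit_ofBits_lt _ _ i.2]
  by_cases h : i ∈ X
  · simp [h]
  · simp [h]

theorem code_lt (X : Set (Fin 12)) : code X < 4096 := by
  have := Nat.ofBits_lt_two_pow (fun i : Fin 12 => (open Classical in decide (i ∈ X)))
  exact this

open Classical in
theorem pop_code (X : Set (Fin 12)) : pop (code X) = X.ncard := by
  have h1 : X.ncard = ∑ i : Fin 12, (if i ∈ X then 1 else 0) := by
    rw [Set.ncard_eq_toFinset_card']
    rw [← Finset.card_filter]
    congr 1
    ext i
    simp
  rw [h1]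
  have h2 : ∀ i : Fin 12, (if i ∈ X then 1 else 0) = bit (code X) i := fun i => (bit_code X i).symm
  simp only [h2]
  simp only [Fin.sum_univ_succ, Fin.sum_univ_zero]
  rfl

theorem chkX_code (X : Set (Fin 12)) : chkX (code X) = true := by
  have h := chk_all
  have hlt := code_lt X
  have ha := List.all_eq_true.mp h (code X / 64) (List.mem_range.mpr (by omega))
  have hb := List.all_eq_true.mp ha (code X % 64) (List.mem_range.mpr (by omega))
  have he : Nat.add (Nat.mul 64 (code X / 64)) (code X % 64) = code X := Nat.div_add_mod _ _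
  rw [he] at hb
  exact hb

/-- Semantics of the mask of a list of edges. -/
theorem mask_bit (m : List (Fin 18)) (e : Fin 18) (he : e ∈ m) :
    (conv m).1.testBit e = true := by
  unfold conv
  induction m with
  | nil => exact absurd he (by simp)
  | cons a m ih =>
    rw [List.foldr_cons]
    show (2 ^ (a : ℕ) ||| _).testBit _ = true
    rw [Nat.testBit_or]
    rcases List.mem_cons.mp he with rfl | h
    · rw [Nat.testBit_two_pow_self]
      rfl
    · have := ih h
      simp only at this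
      rw [this, Bool.or_true]

theorem un_bit_aux (x e : ℕ) (l : List (ℕ × List (ℕ × ℕ))) (p : ℕ × List (ℕ × ℕ)) (hp : p ∈ l)
    (h1 : cc p.2 x = 1) (h2 : p.1.testBit e = true) :
    (l.foldr (fun p acc => bif Nat.beq (cc p.2 x) 1 then Nat.lor p.1 acc else acc) 0).testBit e
      = true := by
  induction l with
  | nil => exact absurd hp (by simp)
  | cons a l ih =>
    rw [List.foldr_cons]
    rcases List.mem_cons.mp hp with rfl | h
    · rw [h1]
      show (_ ||| _ : ℕ).testBit e = true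
      rw [Nat.testBit_or, h2, Bool.true_or]
    · have := ih h
      cases hb : Nat.beq (cc a.2 x) 1
      · exact this
      · show (_ ||| _ : ℕ).testBit e = true
        rw [Nat.testBit_or, this, Bool.or_true]

/-- Every edge of a listed matching with one cut edge is in the union. -/
theorem un_bit (x : ℕ) (m : List (Fin 18)) (hm : m ∈ L) (e : Fin 18) (he : e ∈ m)
    (h1 : cc (conv m).2 x = 1) : bit (un x) e = 1 := by
  rw [bit_eq]
  have : (un x).testBit e = true := by
    unfold un
    refine un_bit_aux x e L' (conv m) ?_ h1 (mask_bit m e he)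
    rw [L'_eq]
    exact List.mem_map_of_mem hm
  rw [this]
  rfl

theorem L_nodup : ∀ m ∈ L, m.Nodup := by decide +kernel

open Classical in
theorem mem_cut_G12 (X : Set (Fin 12)) (e : Fin 18) :
    (if e ∈ G12.cut X then 1 else 0) =
      (bit (code X) (es e).1 + bit (code X) (es e).2) % 2 := by
  rw [bit_code, bit_code, G12.mem_cut_iff]
  have h1 : (∃ v ∈ G12.ends e, v ∈ X) ↔ ((es e).1 ∈ X ∨ (es e).2 ∈ X) := by
    constructor
    · rintro ⟨v, hv, hvX⟩
      rcases Sym2.mem_iff.mp hv with rfl | rfl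
      · exact Or.inl hvX
      · exact Or.inr hvX
    · rintro (h | h)
      · exact ⟨_, Sym2.mem_mk_left _ _, h⟩
      · exact ⟨_, Sym2.mem_mk_right _ _, h⟩
  have h2 : (∃ v ∈ G12.ends e, v ∉ X) ↔ ((es e).1 ∉ X ∨ (es e).2 ∉ X) := by
    constructor
    · rintro ⟨v, hv, hvX⟩
      rcases Sym2.mem_iff.mp hv with rfl | rfl
      · exact Or.inl hvX
      · exact Or.inr hvX
    · rintro (h | h)
      · exact ⟨_, Sym2.mem_mk_left _ _, h⟩
      · exact ⟨_, Sym2.mem_mk_right _ _, h⟩
  rw [h1, h2]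
  by_cases ha : (es e).1 ∈ X <;> by_cases hb : (es e).2 ∈ X <;> simp [ha, hb]

open Classical in
theorem cc_eq (X : Set (Fin 12)) (m : List (Fin 18)) (hm : m.Nodup) :
    ({e | e ∈ m} ∩ G12.cut X).ncard = cc (conv m).2 (code X) := by
  have h1 : ({e | e ∈ m} ∩ G12.cut X).ncard =
      ∑ e ∈ m.toFinset, (if e ∈ G12.cut X then 1 else 0) := by
    rw [← Finset.card_filter, Set.ncard_eq_toFinset_card']
    congr 1
    ext e
    simp
  rw [h1, List.sum_toFinset _ hm]
  unfold conv cc
  induction m with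
  | nil => rfl
  | cons a m ih =>
    have hm' := (List.nodup_cons.mp hm).2
    rw [List.map_cons, List.sum_cons, List.map_cons, List.foldr_cons, mem_cut_G12]
    have := ih hm' (by
      rw [← Finset.card_filter, Set.ncard_eq_toFinset_card']
      congr 1
      ext e
      simp)
    simp only at this
    rw [this]
    rfl

open Classical in
/-- Every perfect matching is in the list. -/
theorem pm_in_L (M : Set (Fin 18)) (h : G12.IsPerfectMatching M) :
    ∃ m ∈ L, M = {e | e ∈ m} := by
  have hp : pmB (fun e => decide (e ∈ M)) = true := by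
    unfold pmB
    rw [List.all_eq_true]
    intro v _
    obtain ⟨e, ⟨heM, hev⟩, hu⟩ := h v
    rw [mem_inc] at hev
    obtain ⟨n1, n2, n3⟩ := inc_ne v
    have key : ∀ g, (g = (inc v).1 ∨ g = (inc v).2.1 ∨ g = (inc v).2.2) → g ≠ e → g ∉ M := by
      intro g hg hne hgM
      exact hne (hu g ⟨hgM, (mem_inc v g).mpr hg⟩)
    rcases hev with he | he | he
    · have k2 := key _ (Or.inr (Or.inl rfl)) (by rw [he]; exact n1.symm)
      have k3 := key _ (Or.inr (Or.inr rfl)) (by rw [he]; exact n2.symm)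
      rw [he] at heM
      simp [oneHot, heM, k2, k3]
    · have k1 := key _ (Or.inl rfl) (by rw [he]; exact n1)
      have k3 := key _ (Or.inr (Or.inr rfl)) (by rw [he]; exact n3.symm)
      rw [he] at heM
      simp [oneHot, heM, k1, k3]
    · have k1 := key _ (Or.inl rfl) (by rw [he]; exact n2)
      have k2 := key _ (Or.inr (Or.inl rfl)) (by rw [he]; exact n3)
      rw [he] at heM
      simp [oneHot, heM, k1, k2]
  have hL := pmB_inL _ hp
  unfold inL at hL
  obtain ⟨m, hm, hall⟩ := List.any_eq_true.mp hL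
  refine ⟨m, hm, ?_⟩
  ext e
  have := List.all_eq_true.mp hall e (List.mem_finRange e)
  simp only [beq_iff_eq] at this
  rw [Set.mem_ofPred_eq, ← List.elem_iff, ← this]
  simp

/-- The key property of the graph. -/
theorem key_cut (X : Set (Fin 12)) (hodd : Odd X.ncard) (hn : ¬ Trivial X) :
    ∃ e : Fin 18, ∀ M, G12.IsPerfectMatching M → e ∈ M → (M ∩ G12.cut X).ncard ≠ 1 := by
  have hc := chkX_code X
  unfold chkX at hc
  have hp1 : pop (code X) ≠ 1 := by
    rw [pop_code]
    intro h
    exact hn (Or.inl h)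
  have hp11 : pop (code X) ≠ 11 := by
    rw [pop_code]
    intro h
    refine hn (Or.inr ?_)
    have := Set.ncard_add_ncard_compl X
    rw [h, Nat.card_eq_fintype_card, Fintype.card_fin] at this
    omega
  have hpo : Nat.mod (pop (code X)) 2 = 1 := by
    rw [pop_code]
    exact Nat.odd_iff.mp hodd
  have e1 : Nat.beq (Nat.mod (pop (code X)) 2) 1 = true := by rw [hpo]; rfl
  have e2 : Nat.beq (pop (code X)) 1 = false := by
    cases hb : Nat.beq (pop (code X)) 1
    · rfl
    · exact absurd (Nat.eq_of_beq_eq_true hb) hp1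
  have e3 : Nat.beq (pop (code X)) 11 = false := by
    cases hb : Nat.beq (pop (code X)) 11
    · rfl
    · exact absurd (Nat.eq_of_beq_eq_true hb) hp11
  rw [e1, e2, e3] at hc
  simp only [Bool.not_false, Bool.and_true, cond_true] at hc
  obtain ⟨e, he, hb⟩ := List.any_eq_true.mp hc
  have he18 : e < 18 := List.mem_range.mp he
  have hb0 : bit (un (code X)) e = 0 := Nat.eq_of_beq_eq_true hb
  refine ⟨⟨e, he18⟩, ?_⟩
  intro M hM heM hcard
  obtain ⟨m, hm, rfl⟩ := pm_in_L M hM
  rw [cc_eq X m (L_nodup m hm)] at hcard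
  have := un_bit (code X) m hm ⟨e, he18⟩ heM hcard
  simp only at this
  rw [hb0] at this
  exact absurd this (by norm_num)

theorem L_pm : ∀ m ∈ L, ∀ v : Fin 12, (∃ e : Fin 18, (e ∈ m ∧
    (e = (inc v).1 ∨ e = (inc v).2.1 ∨ e = (inc v).2.2)) ∧
    ∀ f : Fin 18, (f ∈ m ∧ (f = (inc v).1 ∨ f = (inc v).2.1 ∨ f = (inc v).2.2)) → f = e) := by
  decide +kernel

theorem L_cover : ∀ e : Fin 18, ∃ m ∈ L, e ∈ m := by decide +kernel

theorem pm_of_L (m : List (Fin 18)) (hm : m ∈ L) : G12.IsPerfectMatching {e | e ∈ m} := by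
  intro v
  obtain ⟨e, ⟨he1, he2⟩, hu⟩ := L_pm m hm v
  refine ⟨e, ⟨he1, (mem_inc v e).mpr he2⟩, ?_⟩
  rintro f ⟨hf1, hf2⟩
  exact hu f ⟨hf1, (mem_inc v f).mp hf2⟩

theorem adj_symm {V E : Type} (G : MGraph V E) {a b : V} (h : G.Adj a b) : G.Adj b a := by
  obtain ⟨e, he⟩ := h
  exact ⟨e, by rw [he, Sym2.eq_swap]⟩

theorem adj_es (e : Fin 18) : G12.Adj (es e).1 (es e).2 := ⟨e, rfl⟩

theorem conn0 : ∀ v : Fin 12, Relation.ReflTransGen G12.Adj 0 v := by
  have r0 : Relation.ReflTransGen G12.Adj 0 0 := Relation.ReflTransGen.refl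
  have r10 : Relation.ReflTransGen G12.Adj 0 10 := r0.tail (adj_es 0)
  have r4 : Relation.ReflTransGen G12.Adj 0 4 := r0.tail (adj_es 1)
  have r5 : Relation.ReflTransGen G12.Adj 0 5 := r0.tail (adj_es 2)
  have r1 : Relation.ReflTransGen G12.Adj 0 1 := r5.tail (adj_symm G12 (adj_es 5))
  have r9 : Relation.ReflTransGen G12.Adj 0 9 := r1.tail (adj_es 3)
  have r7 : Relation.ReflTransGen G12.Adj 0 7 := r1.tail (adj_es 4)
  have r2 : Relation.ReflTransGen G12.Adj 0 2 := r4.tail (adj_symm G12 (adj_es 7))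
  have r11 : Relation.ReflTransGen G12.Adj 0 11 := r2.tail (adj_es 6)
  have r3 : Relation.ReflTransGen G12.Adj 0 3 := r9.tail (adj_symm G12 (adj_es 10))
  have r6 : Relation.ReflTransGen G12.Adj 0 6 := r3.tail (adj_es 9)
  have r8 : Relation.ReflTransGen G12.Adj 0 8 := r6.tail (adj_es 13)
  intro v
  fin_cases v
  · exact r0
  · exact r1
  · exact r2
  · exact r3
  · exact r4
  · exact r5
  · exact r6
  · exact r7
  · exact r8
  · exact r9
  · exact r10
  · exact r11

theorem connected_G12 : G12.Connected := by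
  refine ⟨⟨0⟩, ?_⟩
  intro a b
  have hs : ∀ x y, Relation.ReflTransGen G12.Adj x y → Relation.ReflTransGen G12.Adj y x := by
    intro x y h
    induction h with
    | refl => exact Relation.ReflTransGen.refl
    | tail _ h2 ih => exact Relation.ReflTransGen.head (adj_symm G12 h2) ih
  exact (hs 0 a (conn0 a)).trans (conn0 b)

theorem matchingCovered_G12 : G12.MatchingCovered := by
  refine ⟨by rw [Nat.card_eq_fintype_card, Fintype.card_fin]; norm_num, connected_G12, ?_⟩
  intro e
  obtain ⟨m, hm, he⟩ := L_cover e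
  exact ⟨_, pm_of_L m hm, he⟩

theorem cubic_G12 : G12.Cubic := by
  intro v
  have h : {e | v ∈ G12.ends e} = ((({(inc v).1, (inc v).2.1, (inc v).2.2} : Finset (Fin 18))) :
      Set (Fin 18)) := by
    ext e
    simp only [Set.mem_ofPred_eq, mem_inc, Finset.coe_insert, Finset.coe_singleton,
      Set.mem_insert_iff, Set.mem_singleton_iff]
  rw [h, Set.ncard_coe_finset]
  obtain ⟨n1, n2, n3⟩ := inc_ne v
  exact Finset.card_eq_three.mpr ⟨_, _, _, n1, n2, n3, rfl⟩

theorem simple_G12 : G12.Simple := by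
  have h : ∀ e f : Fin 18, s((es e).1, (es e).2) = s((es f).1, (es f).2) → e = f := by
    decide +kernel
  intro e f hef
  exact h e f hef

theorem not_bipartite_G12 : ¬ G12.Bipartite := by
  rintro ⟨c, hc⟩
  have h1 := hc 1 9 (adj_es 3)
  have h2 := hc 8 9 (adj_es 16)
  have h3 := hc 6 8 (adj_es 13)
  have h4 := hc 6 7 (adj_es 14)
  have h5 := hc 1 7 (adj_es 4)
  revert h1 h2 h3 h4 h5
  cases c 1 <;> cases c 9 <;> cases c 8 <;> cases c 6 <;> cases c 7 <;> decide

theorem brick_G12 : G12.Brick := by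
  refine ⟨matchingCovered_G12, not_bipartite_G12, ?_⟩
  intro X hodd ht
  by_contra hn
  obtain ⟨e, he⟩ := key_cut X hodd hn
  obtain ⟨_, _, h3⟩ := matchingCovered_G12
  obtain ⟨M, hM, heM⟩ := h3 e
  exact he M hM heM (ht M hM)

/-- No nontrivial separating cut. -/
theorem no_separating_G12 (X : Set (Fin 12)) (hodd : Odd X.ncard) (hs : G12.Separating X) :
    Trivial X := by
  by_contra hn
  obtain ⟨e, he⟩ := key_cut X hodd hn
  obtain ⟨M, hM, heM, f, hf⟩ := G12.separating_edge X hs e
  refine he M hM heM ?_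
  rw [hf, Set.ncard_singleton]

theorem tight_of_trivial {V E : Type} (G : MGraph V E) (X : Set V) (h : Trivial X) :
    G.Tight X := by
  intro M hM
  have hl : ∀ (v : V) (f : E), v ∈ G.ends f → ∃ w ∈ G.ends f, w ≠ v := by
    intro v f hv
    obtain ⟨w, hw⟩ := hv
    refine ⟨w, by rw [hw]; exact Sym2.mem_mk_right v w, ?_⟩
    intro hwv
    have := G.loopless f
    rw [hw, Sym2.mk_isDiag_iff] at this
    exact this hwv.symm
  rcases h with h | h
  · obtain ⟨v, rfl⟩ := Set.ncard_eq_one.mp h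
    obtain ⟨e, ⟨heM, hev⟩, hu⟩ := hM v
    refine Set.ncard_eq_one.mpr ⟨e, ?_⟩
    ext g
    rw [Set.mem_inter_iff, mem_cut_iff, Set.mem_singleton_iff]
    constructor
    · rintro ⟨hg, ⟨w, hw, hwv⟩, _⟩
      rw [Set.mem_singleton_iff] at hwv
      subst hwv
      exact hu g ⟨hg, hw⟩
    · rintro rfl
      obtain ⟨w, hw, hne⟩ := hl v g hev
      exact ⟨heM, ⟨v, hev, rfl⟩, ⟨w, hw, hne⟩⟩
  · obtain ⟨v, hv⟩ := Set.ncard_eq_one.mp h
    have hX : ∀ w, w ∉ X ↔ w = v := by
      intro w
      have : w ∈ Xᶜ ↔ w ∈ ({v} : Set V) := by rw [hv]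
      rw [Set.mem_compl_iff, Set.mem_singleton_iff] at this
      exact this
    obtain ⟨e, ⟨heM, hev⟩, hu⟩ := hM v
    refine Set.ncard_eq_one.mpr ⟨e, ?_⟩
    ext g
    rw [Set.mem_inter_iff, mem_cut_iff, Set.mem_singleton_iff]
    constructor
    · rintro ⟨hg, _, ⟨w, hw, hwv⟩⟩
      rw [hX] at hwv
      subst hwv
      exact hu g ⟨hg, hw⟩
    · rintro rfl
      obtain ⟨w, hw, hne⟩ := hl v g hev
      refine ⟨heM, ⟨w, hw, ?_⟩, ⟨v, hev, (hX v).mpr rfl⟩⟩
      by_contra hwX
      exact hne ((hX w).mp hwX)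

theorem solid_G12 : G12.SolidGraph := by
  intro X hodd hs
  exact tight_of_trivial G12 X (no_separating_G12 X hodd hs)

/-- The first pentagon. -/
def pent1 : ZMod 5 → Fin 12 := (![1, 9, 8, 6, 7] : Fin 5 → Fin 12)

/-- The second pentagon. -/
def pent2 : ZMod 5 → Fin 12 := (![0, 10, 11, 2, 5] : Fin 5 → Fin 12)

theorem pent1_cycle : G12.IsOddCycle 5 pent1 := by
  refine ⟨by decide, by decide, ?_⟩
  have h : ∀ i : ZMod 5, ∃ e : Fin 18, s((es e).1, (es e).2) = s(pent1 i, pent1 (i + 1)) := by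
    decide +kernel
  exact h

theorem pent2_cycle : G12.IsOddCycle 5 pent2 := by
  refine ⟨by decide, by decide, ?_⟩
  have h : ∀ i : ZMod 5, ∃ e : Fin 18, s((es e).1, (es e).2) = s(pent2 i, pent2 (i + 1)) := by
    decide +kernel
  exact h

theorem pents_disjoint : ∀ i j : ZMod 5, pent1 i ≠ pent2 j := by decide

theorem not_oddIntercyclic_G12 : ¬ G12.OddIntercyclic := by
  intro h
  obtain ⟨i, j, hij⟩ := h 5 5 pent1 pent2 pent1_cycle pent2_cycle
  exact pents_disjoint i j hij

end Pool.Agent.H20.Solid
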