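import Pool.Agent.H20.SolidDefs

set_option autoImplicit false

namespace Pool.Agent.H20.Solid.MGraph

variable {V E : Type} (G : MGraph V E)

theorem some_mem_contract (X : Set V) (v : V) (hv : v ∉ X)
    (g : {e : E // ∃ v ∈ G.ends e, v ∉ X}) :
    (some ⟨v, hv⟩ : Option {v : V // v ∉ X}) ∈ (G.contract X).ends g ↔ v ∈ G.ends g.1 := by
  show _ ∈ (G.ends g.1).map (shrink X) ↔ _
  rw [Sym2.mem_map]
  constructor
  · rintro ⟨a, ha, h⟩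
    unfold shrink at h
    by_cases haX : a ∈ X
    · rw [dif_pos haX] at h
      exact absurd h (by simp)
    · rw [dif_neg haX] at h
      simp only [Option.some.injEq, Subtype.mk.injEq] at h
      rw [← h]
      exact ha
  · intro h
    refine ⟨v, h, ?_⟩
    unfold shrink
    rw [dif_neg hv]

theorem none_mem_contract (X : Set V) (g : {e : E // ∃ v ∈ G.ends e, v ∉ X}) :
    (none : Option {v : V // v ∉ X}) ∈ (G.contract X).ends g ↔ ∃ a ∈ G.ends g.1, a ∈ X := by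
  show _ ∈ (G.ends g.1).map (shrink X) ↔ _
  rw [Sym2.mem_map]
  constructor
  · rintro ⟨a, ha, h⟩
    refine ⟨a, ha, ?_⟩
    by_contra haX
    unfold shrink at h
    rw [dif_neg haX] at h
    exact absurd h (by simp)
  · rintro ⟨a, ha, haX⟩
    refine ⟨a, ha, ?_⟩
    unfold shrink
    rw [dif_pos haX]

theorem mem_cut_iff (X : Set V) (f : E) :
    f ∈ G.cut X ↔ (∃ v ∈ G.ends f, v ∈ X) ∧ (∃ v ∈ G.ends f, v ∉ X) := by
  constructor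
  · rintro ⟨a, ha, b, hb, h⟩
    rw [h]
    exact ⟨⟨a, Sym2.mem_mk_left a b, ha⟩, ⟨b, Sym2.mem_mk_right a b, hb⟩⟩
  · rintro ⟨⟨a, ha, haX⟩, ⟨b, hb, hbX⟩⟩
    have hab : a ≠ b := fun h => hbX (h ▸ haX)
    exact ⟨a, haX, b, hbX, ((Sym2.mem_and_mem_iff hab).mp ⟨ha, hb⟩)⟩

/-- Glueing perfect matchings of the two contractions along a common cut edge. -/
theorem glue (X : Set V) (M1 : Set {e : E // ∃ v ∈ G.ends e, v ∉ X})
    (h1 : (G.contract X).IsPerfectMatching M1)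
    (M2 : Set {e : E // ∃ v ∈ G.ends e, v ∉ Xᶜ})
    (h2 : (G.contract Xᶜ).IsPerfectMatching M2)
    (f : E) (hfa : ∃ v ∈ G.ends f, v ∉ X) (hfb : ∃ v ∈ G.ends f, v ∉ Xᶜ)
    (hf1 : (⟨f, hfa⟩ : {e : E // ∃ v ∈ G.ends e, v ∉ X}) ∈ M1)
    (hf2 : (⟨f, hfb⟩ : {e : E // ∃ v ∈ G.ends e, v ∉ Xᶜ}) ∈ M2) :
    G.IsPerfectMatching (Subtype.val '' M1 ∪ Subtype.val '' M2) ∧
      (Subtype.val '' M1 ∪ Subtype.val '' M2) ∩ G.cut X = {f} := by
  have hfX : ∃ v ∈ G.ends f, v ∈ X := by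
    obtain ⟨v, hv, hvX⟩ := hfb
    exact ⟨v, hv, not_not.mp hvX⟩
  -- uniqueness of the cut edge on each side
  have u1 : ∀ g ∈ M1, (∃ a ∈ G.ends g.1, a ∈ X) → g.1 = f := by
    intro g hg ha
    have h := (h1 none).unique ⟨hg, (G.none_mem_contract X g).mpr ha⟩
      ⟨hf1, (G.none_mem_contract X _).mpr hfX⟩
    rw [h]
  have u2 : ∀ g ∈ M2, (∃ a ∈ G.ends g.1, a ∉ X) → g.1 = f := by
    intro g hg ha
    have h := (h2 none).unique ⟨hg, (G.none_mem_contract Xᶜ g).mpr ha⟩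
      ⟨hf2, (G.none_mem_contract Xᶜ _).mpr hfa⟩
    rw [h]
  refine ⟨?_, ?_⟩
  · intro v
    by_cases hv : v ∈ X
    · have hv' : v ∉ Xᶜ := not_not.mpr hv
      obtain ⟨g, ⟨hgM, hg⟩, hu⟩ := h2 (some ⟨v, hv'⟩)
      rw [G.some_mem_contract Xᶜ v hv'] at hg
      refine ⟨g.1, ⟨Or.inr ⟨g, hgM, rfl⟩, hg⟩, ?_⟩
      rintro g' ⟨hg' | hg', hv2⟩
      · obtain ⟨k, hk, rfl⟩ := hg'
        have hkf := u1 k hk ⟨v, hv2, hv⟩
        rw [hkf] at hv2 ⊢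
        have := hu ⟨f, hfb⟩ ⟨hf2, (G.some_mem_contract Xᶜ v hv' _).mpr hv2⟩
        rw [← this]
      · obtain ⟨k, hk, rfl⟩ := hg'
        have := hu k ⟨hk, (G.some_mem_contract Xᶜ v hv' _).mpr hv2⟩
        rw [this]
    · obtain ⟨g, ⟨hgM, hg⟩, hu⟩ := h1 (some ⟨v, hv⟩)
      rw [G.some_mem_contract X v hv] at hg
      refine ⟨g.1, ⟨Or.inl ⟨g, hgM, rfl⟩, hg⟩, ?_⟩
      rintro g' ⟨hg' | hg', hv2⟩
      · obtain ⟨k, hk, rfl⟩ := hg'
        have := hu k ⟨hk, (G.some_mem_contract X v hv _).mpr hv2⟩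
        rw [this]
      · obtain ⟨k, hk, rfl⟩ := hg'
        have hkf := u2 k hk ⟨v, hv2, hv⟩
        rw [hkf] at hv2 ⊢
        have := hu ⟨f, hfa⟩ ⟨hf1, (G.some_mem_contract X v hv _).mpr hv2⟩
        rw [← this]
  · ext g
    simp only [Set.mem_inter_iff, Set.mem_union, Set.mem_singleton_iff, mem_cut_iff]
    constructor
    · rintro ⟨hg | hg, ha, hb⟩
      · obtain ⟨k, hk, rfl⟩ := hg
        exact u1 k hk ha
      · obtain ⟨k, hk, rfl⟩ := hg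
        exact u2 k hk hb
    · rintro rfl
      exact ⟨Or.inl ⟨_, hf1, rfl⟩, hfX, hfa⟩

/-- In a graph with a separating cut every edge lies in a perfect matching having exactly one
edge in the cut. -/
theorem separating_edge (X : Set V) (h : G.Separating X) (e : E) :
    ∃ M, G.IsPerfectMatching M ∧ e ∈ M ∧ ∃ f, M ∩ G.cut X = {f} := by
  obtain ⟨⟨_, _, hA⟩, ⟨_, _, hB⟩⟩ := h
  by_cases he : ∃ v ∈ G.ends e, v ∉ X
  · obtain ⟨M1, hM1, he1⟩ := hA ⟨e, he⟩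
    obtain ⟨⟨f, hfa⟩, ⟨hf1, hfn⟩, _⟩ := hM1 none
    rw [none_mem_contract] at hfn
    have hfb : ∃ v ∈ G.ends f, v ∉ Xᶜ := by
      obtain ⟨a, ha, haX⟩ := hfn
      exact ⟨a, ha, not_not.mpr haX⟩
    obtain ⟨M2, hM2, hf2⟩ := hB ⟨f, hfb⟩
    obtain ⟨g1, g2⟩ := G.glue X M1 hM1 M2 hM2 f hfa hfb hf1 hf2
    exact ⟨_, g1, Or.inl ⟨_, he1, rfl⟩, f, g2⟩
  · have he' : ∃ v ∈ G.ends e, v ∉ Xᶜ := by
      push Not at he
      obtain ⟨v, hv⟩ : ∃ v, v ∈ G.ends e := by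
        induction G.ends e using Sym2.ind with
        | _ a b => exact ⟨a, Sym2.mem_mk_left a b⟩
      exact ⟨v, hv, not_not.mpr (he v hv)⟩
    obtain ⟨M2, hM2, he2⟩ := hB ⟨e, he'⟩
    obtain ⟨⟨f, hfb⟩, ⟨hf2, hfn⟩, _⟩ := hM2 none
    rw [none_mem_contract] at hfn
    have hfa : ∃ v ∈ G.ends f, v ∉ X := by
      obtain ⟨a, ha, haX⟩ := hfn
      exact ⟨a, ha, haX⟩
    obtain ⟨M1, hM1, hf1⟩ := hA ⟨f, hfa⟩
    obtain ⟨g1, g2⟩ := G.glue X M1 hM1 M2 hM2 f hfa hfb hf1 hf2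
    exact ⟨_, g1, Or.inr ⟨_, he2, rfl⟩, f, g2⟩

end Pool.Agent.H20.Solid.MGraph
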