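import Mathlib

set_option autoImplicit false

namespace Pool.Agent.H20.Uni

open MvPolynomial

/-- Fewer parameters than coordinates: a nonzero relation. -/
theorem exists_relation {τ : Type} [Fintype τ] {q : ℕ} (hq : Fintype.card τ < q)
    (φ : Fin q → MvPolynomial τ ℂ) :
    ∃ Q : MvPolynomial (Fin q) ℂ, Q ≠ 0 ∧ MvPolynomial.aeval φ Q = 0 := by
  by_contra hcon
  push Not at hcon
  have hind : AlgebraicIndependent ℂ φ := by
    rw [algebraicIndependent_iff]
    intro p hp
    by_contra hne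
    exact hcon p hne hp
  have h1 := hind.lift_cardinalMk_le_trdeg
  rw [MvPolynomial.trdeg_of_isDomain] at h1
  simp only [Cardinal.mk_fintype, Fintype.card_fin, Cardinal.lift_natCast] at h1
  have : q ≤ Fintype.card τ := by exact_mod_cast h1
  omega

/-- the binary monomial exponent `X₀^i X₁^(n-i)` -/
noncomputable def mon (n i : ℕ) : ℕ →₀ ℕ := Finsupp.single 0 i + Finsupp.single 1 (n - i)

theorem mon_zero (n i : ℕ) : mon n i 0 = i := by simp [mon]
theorem mon_one (n i : ℕ) : mon n i 1 = n - i := by simp [mon]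

theorem mon_injective (n : ℕ) : Function.Injective (mon n) := by
  intro i j h
  have := congrArg (fun f => f 0) h
  simpa [mon_zero] using this

theorem exists_witness {N : ℕ} (Q : MvPolynomial (Fin N) ℂ) (hQ : Q ≠ 0) :
    ∃ u : Fin N → ℂ, eval u Q ≠ 0 := by
  by_contra hcon
  push Not at hcon
  exact hQ (MvPolynomial.funext (fun x => by simpa using hcon x))

/-- binary form with a given coefficient vector -/
noncomputable def bform {A : Type} [CommRing A] (n : ℕ) (a : Fin (n+1) → A) : MvPolynomial ℕ A :=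
  ∑ i : Fin (n+1), C (a i) * (X 0 ^ (i:ℕ) * X 1 ^ (n - (i:ℕ)))

/-- the parametrised family: a form of degree `m` in the squares of four forms, each of which is a
combination of the squares of four binary forms of degree `n`. -/
noncomputable def fam {A : Type} [CommRing A] (n m : ℕ) (H : Fin 4 → Fin (n+1) → A)
    (c : Fin 4 → Fin 4 → A) (g : Sym (Fin 4) m → A) : MvPolynomial ℕ A :=
  ∑ s : Sym (Fin 4) m, C (g s) *
    ((s : Multiset (Fin 4)).map (fun j => (∑ a : Fin 4, C (c j a) * (bform n (H a))^2)^2)).prod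

theorem map_bform {A B : Type} [CommRing A] [CommRing B] (f : A →+* B) (n : ℕ)
    (a : Fin (n+1) → A) : MvPolynomial.map f (bform n a) = bform n (fun i => f (a i)) := by
  simp [bform]

theorem map_fam {A B : Type} [CommRing A] [CommRing B] (f : A →+* B) (n m : ℕ)
    (H : Fin 4 → Fin (n+1) → A) (c : Fin 4 → Fin 4 → A) (g : Sym (Fin 4) m → A) :
    MvPolynomial.map f (fam n m H c g) =
      fam n m (fun a i => f (H a i)) (fun j a => f (c j a)) (fun s => f (g s)) := by
  simp only [fam, map_sum, map_mul, MvPolynomial.map_C, map_multiset_prod, Multiset.map_map,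
    Function.comp_def, map_pow, map_bform]

theorem bform_smul {A : Type} [CommRing A] (n : ℕ) (r : A) (a : Fin (n+1) → A) :
    bform n (fun i => r * a i) = C r * bform n a := by
  simp only [bform, Finset.mul_sum, C_mul, mul_assoc]

theorem fam_normalize {K : Type} [Field K] (n m : ℕ) (H : Fin 4 → Fin (n+1) → K)
    (c : Fin 4 → Fin 4 → K) (g : Sym (Fin 4) m → K) (hH : ∀ a, H a 0 ≠ 0) (hc : ∀ j, c j 0 ≠ 0) :
    fam n m H c g =
      fam n m (fun a => Fin.cons 1 (fun i : Fin n => H a i.succ / H a 0))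
        (fun j => Fin.cons 1 (fun a : Fin 3 => c j a.succ * (H a.succ 0)^2 / (c j 0 * (H 0 0)^2)))
        (fun s => g s * ((s : Multiset (Fin 4)).map (fun j => (c j 0 * (H 0 0)^2)^2)).prod) := by
  have h1 : ∀ a, bform n (H a) =
      C (H a 0) * bform n (Fin.cons 1 (fun i : Fin n => H a i.succ / H a 0)) := by
    intro a
    rw [← bform_smul]
    congr 1
    funext i
    refine Fin.cases ?_ (fun i => ?_) i
    · simp
    · simp only [Fin.cons_succ]; field_simp [hH a]
  have h2 : ∀ j, (∑ a : Fin 4, C (c j a) * (bform n (H a))^2) =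
      C (c j 0 * (H 0 0)^2) * ∑ a : Fin 4, C ((Fin.cons 1 (fun a : Fin 3 =>
        c j a.succ * (H a.succ 0)^2 / (c j 0 * (H 0 0)^2)) : Fin 4 → K) a) *
          (bform n (Fin.cons 1 (fun i : Fin n => H a i.succ / H a 0)))^2 := by
    intro j
    rw [Finset.mul_sum]
    refine Finset.sum_congr rfl (fun a _ => ?_)
    rw [h1 a, mul_pow, ← C_pow, ← mul_assoc, ← C_mul, ← mul_assoc, ← C_mul]
    congr 2
    refine Fin.cases ?_ (fun a => ?_) a
    · simp
    · simp only [Fin.cons_succ]
      field_simp [hc j, hH 0]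
  unfold fam
  refine Finset.sum_congr rfl (fun s _ => ?_)
  have h3 : (fun j => (∑ a : Fin 4, C (c j a) * (bform n (H a))^2)^2) =
      fun j => C ((c j 0 * (H 0 0)^2)^2) * (∑ a : Fin 4, C ((Fin.cons 1 (fun a : Fin 3 =>
        c j a.succ * (H a.succ 0)^2 / (c j 0 * (H 0 0)^2)) : Fin 4 → K) a) *
          (bform n (Fin.cons 1 (fun i : Fin n => H a i.succ / H a 0)))^2)^2 := by
    funext j
    rw [h2 j, mul_pow, C_pow]
  rw [h3, Multiset.prod_map_mul, C_mul, mul_assoc]
  congr 2
  rw [map_multiset_prod, Multiset.map_map]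
  rfl

theorem eval_aeval {τ : Type} {q : ℕ} (t : τ → ℂ) (φ : Fin q → MvPolynomial τ ℂ)
    (Q : MvPolynomial (Fin q) ℂ) :
    eval t (MvPolynomial.aeval φ Q) = eval (fun i => eval t (φ i)) Q := by
  induction Q using MvPolynomial.induction_on with
  | C a => simp
  | add p q hp hq => rw [map_add, map_add, map_add, hp, hq]
  | mul_X p i hp => rw [map_mul, map_mul, map_mul, hp, aeval_X, eval_X]

theorem eval_coeff_fam {τ : Type} (t : τ → ℂ) (n m : ℕ) (H : Fin 4 → Fin (n+1) → MvPolynomial τ ℂ)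
    (c : Fin 4 → Fin 4 → MvPolynomial τ ℂ) (g : Sym (Fin 4) m → MvPolynomial τ ℂ) (s : ℕ →₀ ℕ) :
    eval t (coeff s (fam n m H c g)) =
      coeff s (fam n m (fun a i => eval t (H a i)) (fun j a => eval t (c j a))
        (fun s => eval t (g s))) := by
  rw [← map_fam, coeff_map]

/-- The family cannot be dense if the normalised parameter count is less than 65. -/
theorem exists_Q (n m : ℕ) (hcard : 4 * n + (4 * 3 + Fintype.card (Sym (Fin 4) m)) < 65) :
    ∃ Q : MvPolynomial (Fin 65) ℂ, Q ≠ 0 ∧ ∀ H c g,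
      eval (fun i : Fin 65 => coeff (mon 64 i) (fam n m H c g)) Q = 0 := by
  classical
  let τ := (Fin 4 × Fin n) ⊕ ((Fin 4 × Fin 3) ⊕ Sym (Fin 4) m)
  have hτ : Fintype.card τ < 65 := by
    simpa [τ] using hcard
  let Hg : Fin 4 → Fin (n+1) → MvPolynomial τ ℂ := fun a => Fin.cons 1 (fun i => X (Sum.inl (a, i)))
  let cg : Fin 4 → Fin 4 → MvPolynomial τ ℂ :=
    fun a => Fin.cons 1 (fun i => X (Sum.inr (Sum.inl (a, i))))
  let gg : Sym (Fin 4) m → MvPolynomial τ ℂ := fun s => X (Sum.inr (Sum.inr s))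
  obtain ⟨Q, hQ0, hQ⟩ := exists_relation hτ (fun i : Fin 65 => coeff (mon 64 i) (fam n m Hg cg gg))
  refine ⟨Q, hQ0, ?_⟩
  -- vanishing on the normalised family
  have hnorm : ∀ (h : Fin 4 → Fin n → ℂ) (d : Fin 4 → Fin 3 → ℂ) (g : Sym (Fin 4) m → ℂ),
      eval (fun i : Fin 65 => coeff (mon 64 i)
        (fam n m (fun a => Fin.cons 1 (h a)) (fun j => Fin.cons 1 (d j)) g)) Q = 0 := by
    intro h d g
    let t : τ → ℂ := Sum.elim (fun p => h p.1 p.2) (Sum.elim (fun p => d p.1 p.2) g)
    have h1 := congrArg (eval t) hQ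
    rw [map_zero, eval_aeval] at h1
    simp only [eval_coeff_fam] at h1
    have e1 : (fun (a : Fin 4) (i : Fin (n+1)) => eval t (Hg a i)) =
        fun a => Fin.cons 1 (h a) := by
      funext a i
      refine Fin.cases ?_ (fun i => ?_) i
      · simp [Hg]
      · simp [Hg, t]
    have e2 : (fun (a : Fin 4) (i : Fin 4) => eval t (cg a i)) =
        fun a => Fin.cons 1 (d a) := by
      funext a i
      refine Fin.cases ?_ (fun i => ?_) i
      · simp [cg]
      · simp [cg, t]
    have e3 : (fun s => eval t (gg s)) = g := by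
      funext s; simp [gg, t]
    rw [e1, e2, e3] at h1
    exact h1
  -- full parameter space
  let σ := (Fin 4 × Fin (n+1)) ⊕ ((Fin 4 × Fin 4) ⊕ Sym (Fin 4) m)
  let Hf : Fin 4 → Fin (n+1) → MvPolynomial σ ℂ := fun a i => X (Sum.inl (a, i))
  let cf : Fin 4 → Fin 4 → MvPolynomial σ ℂ := fun a i => X (Sum.inr (Sum.inl (a, i)))
  let gf : Sym (Fin 4) m → MvPolynomial σ ℂ := fun s => X (Sum.inr (Sum.inr s))
  let θ : MvPolynomial σ ℂ := aeval (fun i : Fin 65 => coeff (mon 64 i) (fam n m Hf cf gf)) Q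
  have hθ : ∀ t : σ → ℂ, eval t θ = eval (fun i : Fin 65 => coeff (mon 64 i)
      (fam n m (fun a i => t (Sum.inl (a, i))) (fun j a => t (Sum.inr (Sum.inl (j, a))))
        (fun s => t (Sum.inr (Sum.inr s))))) Q := by
    intro t
    simp only [θ, eval_aeval, eval_coeff_fam, Hf, cf, gf, eval_X]
  have hprod : θ * ((∏ a : Fin 4, X (Sum.inl (a, (0 : Fin (n+1))))) *
      (∏ j : Fin 4, X (Sum.inr (Sum.inl (j, (0 : Fin 4)))))) = 0 := by
    refine MvPolynomial.funext (fun t => ?_)
    rw [map_zero, map_mul, map_mul, map_prod, map_prod]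
    simp only [eval_X]
    by_cases hH : ∀ a : Fin 4, t (Sum.inl (a, (0 : Fin (n+1)))) ≠ 0
    · by_cases hc : ∀ j : Fin 4, t (Sum.inr (Sum.inl (j, (0 : Fin 4)))) ≠ 0
      · rw [hθ, fam_normalize n m _ _ _ hH hc, hnorm, zero_mul]
      · push Not at hc
        obtain ⟨j, hj⟩ := hc
        have h0 : ∏ j : Fin 4, t (Sum.inr (Sum.inl (j, (0 : Fin 4)))) = 0 :=
          Finset.prod_eq_zero (Finset.mem_univ j) hj
        rw [h0, mul_zero, mul_zero]
    · push Not at hH
      obtain ⟨a, ha⟩ := hH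
      have h0 : ∏ a : Fin 4, t (Sum.inl (a, (0 : Fin (n+1)))) = 0 :=
        Finset.prod_eq_zero (Finset.mem_univ a) ha
      rw [h0, zero_mul, mul_zero]
  have hθ0 : θ = 0 := by
    rcases mul_eq_zero.mp hprod with h | h
    · exact h
    · exfalso
      rcases mul_eq_zero.mp h with h | h
      · rw [Finset.prod_eq_zero_iff] at h
        obtain ⟨a, -, ha⟩ := h
        exact X_ne_zero _ ha
      · rw [Finset.prod_eq_zero_iff] at h
        obtain ⟨a, -, ha⟩ := h
        exact X_ne_zero _ ha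
  intro H c g
  have := hθ (Sum.elim (fun p => H p.1 p.2) (Sum.elim (fun p => c p.1 p.2) g))
  rw [hθ0, map_zero] at this
  simpa using this.symm

end Pool.Agent.H20.Uni
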