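import Mathlib
import Pool.Agent.H20.UniBasic

set_option autoImplicit false

namespace Pool.Agent.H20.Uni

open MvPolynomial

/-- one layer of the network -/
noncomputable def step (n : ℕ) (w : ℕ → ℕ → ℂ) (r : ℕ) (h : ℕ → MvPolynomial ℕ ℂ) :
    ℕ → MvPolynomial ℕ ℂ :=
  fun a => ∑ b ∈ Finset.range n, C (w a b) * h b ^ r

theorem step_mem {n : ℕ} (w : ℕ → ℕ → ℂ) {r : ℕ} {h : ℕ → MvPolynomial ℕ ℂ}
    (S : Submodule ℂ (MvPolynomial ℕ ℂ)) (hS : ∀ b, b < n → h b ^ r ∈ S) (a : ℕ) :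
    step n w r h a ∈ S := by
  unfold step
  refine Submodule.sum_mem _ (fun b hb => ?_)
  rw [← smul_eq_C_mul]
  exact Submodule.smul_mem _ _ (hS b (Finset.mem_range.mp hb))

/-- binary forms of degree `n` -/
noncomputable def Bn (n : ℕ) : Submodule ℂ (MvPolynomial ℕ ℂ) :=
  Submodule.span ℂ (Set.range (fun i : Fin (n+1) => (X 0 ^ (i:ℕ) * X 1 ^ (n - (i:ℕ)) : MvPolynomial ℕ ℂ)))

theorem mem_Bn_iff {n : ℕ} {p : MvPolynomial ℕ ℂ} : p ∈ Bn n ↔ ∃ a, p = bform n a := by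
  unfold Bn bform
  rw [Submodule.mem_span_range_iff_exists_fun]
  constructor
  · rintro ⟨c, hc⟩
    exact ⟨c, by rw [← hc]; exact Finset.sum_congr rfl (fun i _ => by rw [smul_eq_C_mul])⟩
  · rintro ⟨c, hc⟩
    exact ⟨c, by rw [hc]; exact Finset.sum_congr rfl (fun i _ => by rw [smul_eq_C_mul])⟩

theorem monomial_mem_Bn {n i : ℕ} (h : i ≤ n) :
    (X 0 ^ i * X 1 ^ (n - i) : MvPolynomial ℕ ℂ) ∈ Bn n :=
  Submodule.subset_span ⟨⟨i, by omega⟩, rfl⟩

theorem Bn_mul_le (m n : ℕ) : Bn m * Bn n ≤ Bn (m + n) := by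
  unfold Bn
  rw [Submodule.span_mul_span]
  refine Submodule.span_le.mpr ?_
  rintro _ ⟨_, ⟨i, rfl⟩, _, ⟨j, rfl⟩, rfl⟩
  have hi := i.isLt
  have hj := j.isLt
  have := monomial_mem_Bn (n := m + n) (i := (i:ℕ) + j) (by omega)
  unfold Bn at this
  have e : (X 0 ^ (i:ℕ) * X 1 ^ (m - (i:ℕ)) : MvPolynomial ℕ ℂ) * (X 0 ^ (j:ℕ) * X 1 ^ (n - (j:ℕ)))
      = X 0 ^ ((i:ℕ) + j) * X 1 ^ (m + n - ((i:ℕ) + j)) := by
    have e1 : m + n - ((i:ℕ) + j) = (m - i) + (n - j) := by omega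
    rw [e1, pow_add, pow_add]; ring
  simp only [SetLike.mem_coe]
  rw [e]
  exact this

theorem sq_mem_Bn {n : ℕ} {p : MvPolynomial ℕ ℂ} (h : p ∈ Bn n) : p ^ 2 ∈ Bn (2 * n) := by
  rw [two_mul, pow_two]
  exact Bn_mul_le n n (Submodule.mul_mem_mul h h)

/-- products of `m` elements of the span of a finite family -/
theorem span_pow_le {ι : Type} [DecidableEq ι] (y : ι → MvPolynomial ℕ ℂ) (m : ℕ) :
    (Submodule.span ℂ (Set.range y)) ^ m ≤
      Submodule.span ℂ (Set.range (fun s : Sym ι m => ((s : Multiset ι).map y).prod)) := by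
  induction m with
  | zero =>
    rw [pow_zero, Submodule.one_eq_span]
    refine Submodule.span_mono ?_
    rintro _ rfl
    exact ⟨Sym.nil, by simp⟩
  | succ m ih =>
    rw [pow_succ]
    refine (mul_le_mul_left ih _).trans ?_
    rw [Submodule.span_mul_span]
    refine Submodule.span_mono ?_
    rintro _ ⟨_, ⟨s, rfl⟩, _, ⟨j, rfl⟩, rfl⟩
    refine ⟨j ::ₛ s, ?_⟩
    show (Multiset.map y ((j ::ₛ s : Sym ι (m+1)) : Multiset ι)).prod = _
    rw [Sym.coe_cons, Multiset.map_cons, Multiset.prod_cons, mul_comm]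

theorem fam_of {n m E E' : ℕ} (hE : E ≤ 4) (hE' : E' ≤ 4) {b : ℕ → MvPolynomial ℕ ℂ}
    (hb : ∀ a, b a ∈ Bn n) (w : ℕ → ℕ → ℂ) {out : MvPolynomial ℕ ℂ}
    (hout : out ∈ (Submodule.span ℂ (Set.range (fun j : Fin E' => (step E w 2 b j)^2)))^m) :
    ∃ H c g, out = fam n m H c g := by
  classical
  choose H hH using fun a : Fin 4 => mem_Bn_iff.mp (hb a)
  let c : Fin 4 → Fin 4 → ℂ := fun j a => if (a : ℕ) < E then w j a else 0
  have hF : ∀ j : Fin 4, step E w 2 b j = ∑ a : Fin 4, C (c j a) * (bform n (H a))^2 := by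
    intro j
    unfold step
    have h1 : ∑ a : Fin 4, C (c j a) * (bform n (H a))^2 =
        ∑ a ∈ Finset.range 4, (if a < E then C (w j a) * (b a)^2 else 0) := by
      rw [Finset.sum_range]
      refine Finset.sum_congr rfl (fun a _ => ?_)
      simp only [c]
      split_ifs with h
      · rw [hH a]
      · simp
    rw [h1, ← Finset.sum_filter]
    refine Finset.sum_congr ?_ (fun _ _ => rfl)
    ext a
    simp only [Finset.mem_range, Finset.mem_filter]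
    omega
  have h2 : (Submodule.span ℂ (Set.range (fun j : Fin E' => (step E w 2 b j)^2)))^m ≤
      (Submodule.span ℂ (Set.range (fun j : Fin 4 => (step E w 2 b j)^2)))^m := by
    refine pow_le_pow_left' ?_ m
    refine Submodule.span_mono ?_
    rintro _ ⟨j, rfl⟩
    exact ⟨⟨j, by omega⟩, rfl⟩
  have h3 := span_pow_le _ _ (h2 hout)
  rw [Submodule.mem_span_range_iff_exists_fun] at h3
  obtain ⟨g, hg⟩ := h3
  refine ⟨H, c, g, ?_⟩
  rw [← hg]
  unfold fam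
  refine Finset.sum_congr rfl (fun s _ => ?_)
  rw [smul_eq_C_mul]
  simp only [hF]

/-- The whole network of depth seven with quadratic activation. -/
noncomputable def net (e : Fin 8 → ℕ) (W : Fin 7 → ℕ → ℕ → ℂ) : ℕ → MvPolynomial ℕ ℂ :=
  step (e 6) (W 6) 2 (step (e 5) (W 5) 2 (step (e 4) (W 4) 2 (step (e 3) (W 3) 2
    (step (e 2) (W 2) 2 (step (e 1) (W 1) 2 (step (e 0) (W 0) 1 (fun b => X b)))))))

theorem foldl_eq_net (e : Fin 8 → ℕ) (W : Fin 7 → ℕ → ℕ → ℂ) :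
    ((List.finRange 7).foldl
            (fun (h : ℕ → MvPolynomial ℕ ℂ) (k : Fin 7) (a : ℕ) =>
              ∑ b ∈ Finset.range (e k.castSucc),
                MvPolynomial.C (W k a b) * h b ^ (if (k : ℕ) = 0 then 1 else 2))
            (fun b : ℕ => (MvPolynomial.X b : MvPolynomial ℕ ℂ))) = net e W := by
  rfl

section layers

variable (e : Fin 8 → ℕ) (W : Fin 7 → ℕ → ℕ → ℂ)

theorem h3_mem (h0 : e 0 = 2) (a : ℕ) : (step (e 2) (W 2) 2 (step (e 1) (W 1) 2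
    (step (e 0) (W 0) 1 (fun b => X b)))) a ∈ Bn 4 := by
  have m1 : ∀ a, step (e 0) (W 0) 1 (fun b => X b) a ∈ Bn 1 := by
    intro a
    refine step_mem _ _ (fun b hb => ?_) a
    rw [h0] at hb
    interval_cases b
    · have := monomial_mem_Bn (n := 1) (i := 1) (by omega)
      simpa using this
    · have := monomial_mem_Bn (n := 1) (i := 0) (by omega)
      simpa using this
  have m2 : ∀ a, step (e 1) (W 1) 2 (step (e 0) (W 0) 1 (fun b => X b)) a ∈ Bn 2 :=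
    fun a => step_mem _ _ (fun b _ => sq_mem_Bn (m1 b)) a
  exact step_mem _ _ (fun b _ => sq_mem_Bn (m2 b)) a

theorem h4_mem (h0 : e 0 = 2) (a : ℕ) : (step (e 3) (W 3) 2 (step (e 2) (W 2) 2 (step (e 1) (W 1) 2
    (step (e 0) (W 0) 1 (fun b => X b))))) a ∈ Bn 8 :=
  step_mem _ _ (fun b _ => sq_mem_Bn (h3_mem e W h0 b)) a

theorem net_mem (h0 : e 0 = 2) (a : ℕ) : net e W a ∈ Bn 64 := by
  refine step_mem _ _ (fun b _ => sq_mem_Bn (n := 32) ?_) a
  refine step_mem _ _ (fun b _ => sq_mem_Bn (n := 16) ?_) b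
  exact step_mem _ _ (fun b _ => sq_mem_Bn (h4_mem e W h0 b)) b

theorem net_left (h0 : e 0 = 2) (h3 : e 3 ≤ 4) (h4 : e 4 ≤ 4) :
    ∃ H c g, net e W 0 = fam 4 4 H c g := by
  refine fam_of (E := e 3) (E' := e 4) h3 h4 (h3_mem e W h0) (W 3) ?_
  set Y := (Submodule.span ℂ (Set.range (fun j : Fin (e 4) => (step (e 3) (W 3) 2
    (step (e 2) (W 2) 2 (step (e 1) (W 1) 2 (step (e 0) (W 0) 1 fun b ↦ X b))) j)^2))) with hY
  have m5 : ∀ a, step (e 4) (W 4) 2 (step (e 3) (W 3) 2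
    (step (e 2) (W 2) 2 (step (e 1) (W 1) 2 (step (e 0) (W 0) 1 fun b ↦ X b)))) a ∈ Y := by
    intro a
    refine step_mem _ _ (fun b hb => ?_) a
    exact Submodule.subset_span ⟨⟨b, hb⟩, rfl⟩
  have m6 : ∀ a, step (e 5) (W 5) 2 (step (e 4) (W 4) 2 (step (e 3) (W 3) 2
    (step (e 2) (W 2) 2 (step (e 1) (W 1) 2 (step (e 0) (W 0) 1 fun b ↦ X b))))) a ∈ Y ^ 2 := by
    intro a
    refine step_mem _ _ (fun b _ => ?_) a
    exact Submodule.pow_mem_pow _ (m5 b) 2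
  refine step_mem _ _ (fun b _ => ?_) 0
  have := Submodule.pow_mem_pow _ (m6 b) 2
  rwa [← pow_mul] at this

theorem net_right (h0 : e 0 = 2) (h4 : e 4 ≤ 4) (h5 : e 5 ≤ 4) :
    ∃ H c g, net e W 0 = fam 8 2 H c g := by
  refine fam_of (E := e 4) (E' := e 5) h4 h5 (h4_mem e W h0) (W 4) ?_
  set Y := (Submodule.span ℂ (Set.range (fun j : Fin (e 5) => (step (e 4) (W 4) 2 (step (e 3) (W 3) 2
    (step (e 2) (W 2) 2 (step (e 1) (W 1) 2 (step (e 0) (W 0) 1 fun b ↦ X b)))) j)^2))) with hY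
  have m6 : ∀ a, step (e 5) (W 5) 2 (step (e 4) (W 4) 2 (step (e 3) (W 3) 2
    (step (e 2) (W 2) 2 (step (e 1) (W 1) 2 (step (e 0) (W 0) 1 fun b ↦ X b))))) a ∈ Y := by
    intro a
    refine step_mem _ _ (fun b hb => ?_) a
    exact Submodule.subset_span ⟨⟨b, hb⟩, rfl⟩
  refine step_mem _ _ (fun b _ => ?_) 0
  exact Submodule.pow_mem_pow _ (m6 b) 2

end layers

/-- the filling predicate of the statement -/
def Fill (e : Fin 8 → ℕ) : Prop :=
  ∀ P : MvPolynomial (ℕ × (ℕ →₀ ℕ)) ℂ,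
      (∀ W : Fin 7 → ℕ → ℕ → ℂ,
        MvPolynomial.eval (fun p : ℕ × (ℕ →₀ ℕ) => MvPolynomial.coeff p.2 (net e W p.1)) P = 0) →
      ∀ c : ℕ × (ℕ →₀ ℕ) → ℂ,
        (∀ p : ℕ × (ℕ →₀ ℕ), c p ≠ 0 →
          p.1 < e (Fin.last 7) ∧ (∑ b ∈ p.2.support, p.2 b) = 2 ^ (7 - 1) ∧
            ∀ b ∈ p.2.support, b < e 0) →
        MvPolynomial.eval c P = 0

theorem card_sym_four : Fintype.card (Sym (Fin 4) 4) = 35 := by
  rw [Sym.card_sym_eq_choose]; simp; decide

theorem card_sym_two : Fintype.card (Sym (Fin 4) 2) = 10 := by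
  rw [Sym.card_sym_eq_choose]; simp; decide

theorem not_fill_of {e : Fin 8 → ℕ} (h0 : e 0 = 2) (h7 : 1 ≤ e 7) {n m : ℕ}
    (hcard : 4 * n + (4 * 3 + Fintype.card (Sym (Fin 4) m)) < 65)
    (hfam : ∀ W, ∃ H c g, net e W 0 = fam n m H c g) : ¬ Fill e := by
  intro hfill
  obtain ⟨Q, hQ0, hQ⟩ := exists_Q n m hcard
  obtain ⟨u, hu⟩ := exists_witness Q hQ0
  let f : Fin 65 → ℕ × (ℕ →₀ ℕ) := fun i => (0, mon 64 i)
  have hf : Function.Injective f := by
    intro i j hij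
    have := (Prod.mk.inj hij).2
    exact Fin.ext (mon_injective 64 this)
  have h1 := hfill (rename f Q) (fun W => by
    rw [eval_rename]
    obtain ⟨H, c, g, hW⟩ := hfam W
    have := hQ H c g
    rw [← hW] at this
    exact this)
  have h2 := h1 (Function.extend f u (0 : (ℕ × (ℕ →₀ ℕ)) → ℂ)) (fun p hp => by
    by_cases hpf : ∃ i, f i = p
    · obtain ⟨i, rfl⟩ := hpf
      have hi := i.isLt
      have hsub : (mon 64 i).support ⊆ {0, 1} := by
        intro b hb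
        simp only [mon, Finsupp.mem_support_iff, Finsupp.coe_add, Pi.add_apply, ne_eq,
          Finsupp.single_apply] at hb
        simp only [Finset.mem_insert, Finset.mem_singleton]
        by_contra hcon
        push Not at hcon
        rw [if_neg (Ne.symm hcon.1), if_neg (Ne.symm hcon.2)] at hb
        exact hb rfl
      refine ⟨?_, ?_, ?_⟩
      · exact h7
      · show ∑ b ∈ (mon 64 i).support, mon 64 i b = 2 ^ (7 - 1)
        rw [Finset.sum_subset hsub (fun b _ hb => by simpa using hb)]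
        rw [Finset.sum_pair (by norm_num), mon_zero, mon_one]
        omega
      · intro b hb
        have := hsub hb
        simp only [Finset.mem_insert, Finset.mem_singleton] at this
        rw [h0]; omega
    · exact absurd (Function.extend_apply' u (0 : (ℕ × (ℕ →₀ ℕ)) → ℂ) p hpf) hp)
  rw [eval_rename] at h2
  apply hu
  have : (Function.extend f u (0 : (ℕ × (ℕ →₀ ℕ)) → ℂ)) ∘ f = u := by
    funext i
    exact hf.extend_apply u _ i
  rw [← this]
  exact h2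

theorem not_fill_left {e : Fin 8 → ℕ} (h0 : e 0 = 2) (h7 : 1 ≤ e 7) (h3 : e 3 ≤ 4) (h4 : e 4 ≤ 4) :
    ¬ Fill e :=
  not_fill_of h0 h7 (by rw [card_sym_four]; norm_num) (fun W => net_left e W h0 h3 h4)

theorem not_fill_right {e : Fin 8 → ℕ} (h0 : e 0 = 2) (h7 : 1 ≤ e 7) (h4 : e 4 ≤ 4) (h5 : e 5 ≤ 4) :
    ¬ Fill e :=
  not_fill_of h0 h7 (by rw [card_sym_two]; norm_num) (fun W => net_right e W h0 h4 h5)

end Pool.Agent.H20.Uni
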