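import Mathlib
import Pool.Agent.H20.UniNet

set_option autoImplicit false

namespace Pool.Agent.H20.Uni

open MvPolynomial

/-- product of two elements is a combination of squares -/
theorem mul_le_span_sq (S : Submodule ℂ (MvPolynomial ℕ ℂ)) :
    S * S ≤ Submodule.span ℂ {p | ∃ u ∈ S, p = u ^ 2} := by
  rw [Submodule.mul_le]
  intro a ha b hb
  have h1 : (a + b) ^ 2 ∈ Submodule.span ℂ {p | ∃ u ∈ S, p = u ^ 2} :=
    Submodule.subset_span ⟨a + b, S.add_mem ha hb, rfl⟩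
  have h2 : a ^ 2 ∈ Submodule.span ℂ {p | ∃ u ∈ S, p = u ^ 2} :=
    Submodule.subset_span ⟨a, ha, rfl⟩
  have h3 : b ^ 2 ∈ Submodule.span ℂ {p | ∃ u ∈ S, p = u ^ 2} :=
    Submodule.subset_span ⟨b, hb, rfl⟩
  have h4 : a * b = (1/2 : ℂ) • ((a + b) ^ 2 - a ^ 2 - b ^ 2) := by
    have e : (a + b) ^ 2 - a ^ 2 - b ^ 2 = (2 : ℂ) • (a * b) := by
      rw [smul_eq_C_mul]
      have : (C (2 : ℂ) : MvPolynomial ℕ ℂ) = 2 := by
        rw [← map_ofNat (C : ℂ →+* MvPolynomial ℕ ℂ) 2]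
      rw [this]; ring
    rw [e, smul_smul]; norm_num
  rw [h4]
  exact Submodule.smul_mem _ _ (Submodule.sub_mem _ (Submodule.sub_mem _ h1 h2) h3)

theorem reach_step {S T : Submodule ℂ (MvPolynomial ℕ ℂ)} (hS : S.FG) (hT : T ≤ S * S) :
    ∃ n : ℕ, 1 ≤ n ∧ ∃ u : ℕ → MvPolynomial ℕ ℂ, (∀ b, u b ∈ S) ∧
      ∀ q : ℕ → MvPolynomial ℕ ℂ, (∀ a, q a ∈ T) → ∃ w : ℕ → ℕ → ℂ, step n w 2 u = q := by
  classical
  obtain ⟨t, ht⟩ := hS.mul hS
  have h1 : (t : Set (MvPolynomial ℕ ℂ)) ⊆ Submodule.span ℂ {p | ∃ u ∈ S, p = u ^ 2} :=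
    fun x hx => mul_le_span_sq S (ht ▸ Submodule.subset_span hx)
  obtain ⟨R, hR, htR⟩ := Submodule.subset_span_finite_of_subset_span h1
  have h2 : T ≤ Submodule.span ℂ (R : Set (MvPolynomial ℕ ℂ)) := by
    refine hT.trans ?_
    rw [← ht]
    exact Submodule.span_le.mpr htR
  -- enumerate `R`
  let l := R.toList
  have hl : ∀ i : Fin l.length, ∃ u ∈ S, l.get i = u ^ 2 := fun i =>
    hR (by have := List.get_mem l i; exact Finset.mem_toList.mp this)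
  choose v hvS hv using hl
  let u : ℕ → MvPolynomial ℕ ℂ := fun b => if h : b < l.length then v ⟨b, h⟩ else 0
  have huS : ∀ b, u b ∈ S := by
    intro b
    simp only [u]
    split_ifs with h
    · exact hvS _
    · exact S.zero_mem
  refine ⟨l.length + 1, by omega, u, huS, ?_⟩
  intro q hq
  have hspan : ∀ a, q a ∈ Submodule.span ℂ (Set.range (fun b : Fin (l.length + 1) => (u b) ^ 2)) := by
    intro a
    refine (Submodule.span_mono ?_) (h2 (hq a))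
    intro x hx
    have hx' : x ∈ l := Finset.mem_toList.mpr hx
    obtain ⟨i, hi⟩ := List.get_of_mem hx'
    refine ⟨⟨i, by omega⟩, ?_⟩
    simp only [u]
    rw [dif_pos i.isLt, ← hv, hi]
  have hspan' : ∀ a, ∃ c : Fin (l.length + 1) → ℂ, ∑ b, c b • (u b) ^ 2 = q a := fun a =>
    (Submodule.mem_span_range_iff_exists_fun ℂ).mp (hspan a)
  choose c hc using hspan'
  refine ⟨fun a b => if h : b < l.length + 1 then c a ⟨b, h⟩ else 0, ?_⟩
  funext a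
  rw [← hc a]
  unfold step
  rw [Finset.sum_range]
  refine Finset.sum_congr rfl (fun b _ => ?_)
  beta_reduce
  rw [dif_pos b.isLt, smul_eq_C_mul]

/-- linear forms in the first `d` variables -/
noncomputable def Lin (d : ℕ) : Submodule ℂ (MvPolynomial ℕ ℂ) :=
  Submodule.span ℂ (Set.range (fun j : Fin d => (X (j : ℕ) : MvPolynomial ℕ ℂ)))

theorem Lin_fg (d : ℕ) : (Lin d).FG := Submodule.fg_span (Set.finite_range _)

theorem reach_first (d : ℕ) (q : ℕ → MvPolynomial ℕ ℂ) (hq : ∀ a, q a ∈ Lin d) :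
    ∃ w : ℕ → ℕ → ℂ, step d w 1 (fun b => X b) = q := by
  have hspan' : ∀ a, ∃ c : Fin d → ℂ, ∑ b, c b • (X (b : ℕ) : MvPolynomial ℕ ℂ) = q a := fun a =>
    (Submodule.mem_span_range_iff_exists_fun ℂ).mp (hq a)
  choose c hc using hspan'
  refine ⟨fun a b => if h : b < d then c a ⟨b, h⟩ else 0, ?_⟩
  funext a
  rw [← hc a]
  unfold step
  rw [Finset.sum_range]
  refine Finset.sum_congr rfl (fun b _ => ?_)
  beta_reduce
  rw [dif_pos b.isLt, smul_eq_C_mul, pow_one]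

theorem map_step (f : MvPolynomial ℕ ℂ →ₐ[ℂ] MvPolynomial ℕ ℂ) (n : ℕ) (w : ℕ → ℕ → ℂ) (r : ℕ)
    (h : ℕ → MvPolynomial ℕ ℂ) (a : ℕ) : f (step n w r h a) = step n w r (fun b => f (h b)) a := by
  simp only [step, map_sum, map_mul, map_pow]
  refine Finset.sum_congr rfl (fun b _ => ?_)
  congr 1
  exact f.commutes _

/-- Universality: suitable widths reach every quartic form in the squares of any four forms of
degree 8. -/
theorem universal : ∃ n1 n2 n3 n5 n6 : ℕ, 1 ≤ n1 ∧ 1 ≤ n2 ∧ 1 ≤ n3 ∧ 1 ≤ n5 ∧ 1 ≤ n6 ∧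
    ∀ (F : ℕ → MvPolynomial ℕ ℂ), (∀ j, F j ∈ (Lin 2) ^ 8) → ∀ q : ℕ → MvPolynomial ℕ ℂ,
      (∀ a, q a ∈ (Lin 4) ^ 4) →
      ∃ w0 w1 w2 w3 w4 w5 w6 : ℕ → ℕ → ℂ, ∀ a, 
        step n6 w6 2 (step n5 w5 2 (step 4 w4 2 (step n3 w3 2 (step n2 w2 2 (step n1 w1 2
        (step 2 w0 1 (fun b => X b))))))) a =
        aeval (fun j => (F j) ^ 2) (q a) := by
  obtain ⟨n1, hn1, u1, hu1, H1⟩ := reach_step (Lin_fg 2) (T := (Lin 2)^2) (pow_two (Lin 2)).le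
  obtain ⟨n2, hn2, u2, hu2, H2⟩ := reach_step (S := (Lin 2)^2) ((Lin_fg 2).pow 2) (T := (Lin 2)^4)
    (pow_add (Lin 2) 2 2).le
  obtain ⟨n3, hn3, u3, hu3, H3⟩ := reach_step (S := (Lin 2)^4) ((Lin_fg 2).pow 4) (T := (Lin 2)^8)
    (pow_add (Lin 2) 4 4).le
  obtain ⟨n5, hn5, u5, hu5, H5⟩ := reach_step (Lin_fg 4) (T := (Lin 4)^2) (pow_two (Lin 4)).le
  obtain ⟨n6, hn6, u6, hu6, H6⟩ := reach_step (S := (Lin 4)^2) ((Lin_fg 4).pow 2) (T := (Lin 4)^4)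
    (pow_add (Lin 4) 2 2).le
  refine ⟨n1, n2, n3, n5, n6, hn1, hn2, hn3, hn5, hn6, ?_⟩
  intro F hF q hq
  obtain ⟨w3, hw3⟩ := H3 F hF
  obtain ⟨w2, hw2⟩ := H2 u3 hu3
  obtain ⟨w1, hw1⟩ := H1 u2 hu2
  obtain ⟨w0, hw0⟩ := reach_first 2 u1 hu1
  obtain ⟨w6, hw6⟩ := H6 q hq
  obtain ⟨w5, hw5⟩ := H5 u6 hu6
  obtain ⟨w4, hw4⟩ := reach_first 4 u5 hu5
  refine ⟨w0, w1, w2, w3, w4, w5, w6, ?_⟩
  intro a
  have k4 : (fun b => aeval (fun j => (F j) ^ 2) (u5 b)) = step 4 w4 2 F := by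
    funext c
    rw [← hw4, map_step]
    unfold step
    refine Finset.sum_congr rfl (fun d _ => ?_)
    beta_reduce
    rw [aeval_X, pow_one]
  have k5 : (fun b => aeval (fun j => (F j) ^ 2) (u6 b)) = step n5 w5 2 (step 4 w4 2 F) := by
    funext c
    rw [← hw5, map_step, k4]
  rw [hw0, hw1, hw2, hw3, ← hw6, map_step, k5]

end Pool.Agent.H20.Uni
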