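import Mathlib
import Pool.Agent.H20.UniReach

set_option autoImplicit false

namespace Pool.Agent.H20.Uni

open Topology

/-- a fixed quartic form in four variables -/
def G0 {A : Type} [CommRing A] (y : Fin 4 → A) : A :=
  2 * y 0 ^ 4 + y 0 ^ 2 * y 1 ^ 2 + 2 * (y 0 * y 1 ^ 3) - y 0 * y 2 ^ 3 + 2 * (y 1 * y 2 ^ 3) + y 3 ^ 4

abbrev Idx4 := Fin 4 × Fin 4 × Fin 4 × Fin 4

def prod4 {A : Type} [CommRing A] (y : Fin 4 → A) (p : Idx4) : A :=
  y p.1 * y p.2.1 * y p.2.2.1 * y p.2.2.2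

abbrev Par := (Fin 4 → Fin 9 → ℂ) × (Idx4 → ℂ)

noncomputable def lin (F : Fin 4 → Fin 9 → ℂ) (x : ℂ) (j : Fin 4) : ℂ := ∑ a : Fin 9, F j a * x ^ (a : ℕ)

noncomputable def yv (F : Fin 4 → Fin 9 → ℂ) (x : ℂ) (j : Fin 4) : ℂ := (lin F x j) ^ 2

noncomputable def fval (t : Par) (x : ℂ) : ℂ := G0 (yv t.1 x) + ∑ p, t.2 p * prod4 (yv t.1 x) p

noncomputable def fmap (t : Par) : Fin 65 → ℂ := fun k => fval t ((k : ℕ) : ℂ)

theorem fmap_contDiff : ContDiff ℂ 1 fmap := by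
  rw [contDiff_pi]
  intro k
  unfold fmap fval G0 prod4 yv lin
  fun_prop

/-- the base point -/
def F0 : Fin 4 → Fin 9 → ℂ :=
  ![![1,0,0,0,0,0,0,0,0], ![0,0,0,0,0,1,0,0,0], ![0,0,0,0,0,0,0,0,1], ![0,1,0,0,0,0,0,0,1]]

theorem lin_F0 (x : ℂ) : lin F0 x = ![1, x^5, x^8, x + x^8] := by
  funext j
  fin_cases j <;> simp [lin, F0, Fin.sum_univ_succ]

theorem lin_add (F D : Fin 4 → Fin 9 → ℂ) (ε x : ℂ) (j : Fin 4) :
    lin (F + ε • D) x j = lin F x j + ε * lin D x j := by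
  simp only [lin, Pi.add_apply, Pi.smul_apply, smul_eq_mul, Finset.mul_sum, ← Finset.sum_add_distrib]
  refine Finset.sum_congr rfl (fun a _ => ?_)
  ring

theorem hasDerivAt_G0 (L D : Fin 4 → ℂ) :
    HasDerivAt (fun ε : ℂ => G0 (fun j => (L j + ε * D j)^2))
      ((8 * (L 0)^6 + 2 * (L 0)^2 * (L 1)^4 + 2 * (L 1)^6 - (L 2)^6) * (2 * L 0) * D 0
        + (2 * (L 0)^4 * (L 1)^2 + 6 * (L 0)^2 * (L 1)^4 + 2 * (L 2)^6) * (2 * L 1) * D 1
        + (- 3 * (L 0)^2 * (L 2)^4 + 6 * (L 1)^2 * (L 2)^4) * (2 * L 2) * D 2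
        + (4 * (L 3)^6) * (2 * L 3) * D 3) 0 := by
  have h : ∀ j, HasDerivAt (fun ε : ℂ => (L j + ε * D j)^2) (2 * L j * D j) 0 := by
    intro j
    have h1 : HasDerivAt (fun ε : ℂ => L j + ε * D j) (D j) 0 := by
      have := ((hasDerivAt_id (0:ℂ)).mul_const (D j)).const_add (L j)
      simpa using this
    have h2 : HasDerivAt (fun ε : ℂ => (L j + ε * D j)^2)
        ((2 : ℕ) * (L j + 0 * D j) ^ (2 - 1) * D j) 0 := h1.pow 2
    refine h2.congr_deriv ?_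
    norm_num
  have hh := (((((h 0).pow 4).const_mul 2).add (((h 0).pow 2).mul ((h 1).pow 2))).add
    (((h 0).mul ((h 1).pow 3)).const_mul 2)).sub ((h 0).mul ((h 2).pow 3)) |>.add
    (((h 1).mul ((h 2).pow 3)).const_mul 2) |>.add ((h 3).pow 4)
  have hh2 : HasDerivAt (fun ε : ℂ => G0 (fun j => (L j + ε * D j)^2)) _ 0 := hh
  refine hh2.congr_deriv ?_
  simp only [Pi.pow_apply, Nat.add_one_sub_one, Nat.reduceSub]
  norm_num
  ring

theorem fderiv_apply_of_path {v : Par} {t : Par} {d : Fin 65 → ℂ}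
    (h : ∀ k, HasDerivAt (fun ε : ℂ => fmap (t + ε • v) k) (d k) 0) :
    fderiv ℂ fmap t v = d := by
  have h1 : HasFDerivAt fmap (fderiv ℂ fmap t) t :=
    (fmap_contDiff.differentiable (by norm_num) t).hasFDerivAt
  have h2 : HasDerivAt (fun ε : ℂ => t + ε • v) v 0 := by
    have := ((hasDerivAt_id (0:ℂ)).smul_const v).const_add t
    simpa using this
  have h1' : HasFDerivAt fmap (fderiv ℂ fmap t) (t + (0:ℂ) • v) := by simpa using h1
  have h3 := h1'.comp_hasDerivAt (0:ℂ) h2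
  have h4 : HasDerivAt (fun ε : ℂ => fmap (t + ε • v)) d 0 := hasDerivAt_pi.mpr h
  exact h3.unique h4

end Pool.Agent.H20.Uni
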