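import Mathlib
import Pool.Agent.H20.UniJac

set_option autoImplicit false

namespace Pool.Agent.H20.Uni

open Polynomial

theorem mulI (S : Submodule ℂ ℂ[X]) (n : ℤ) {p : ℂ[X]} (h : p ∈ S) : ((n : ℤ) : ℂ[X]) * p ∈ S := by
  have : ((n : ℤ) : ℂ[X]) * p = (n : ℂ) • p := by
    rw [smul_eq_C_mul]; simp
  rw [this]
  exact S.smul_mem _ h

theorem slv (S : Submodule ℂ ℂ[X]) {g q : ℂ[X]} (c : ℤ) {n : ℕ} (hc : c ≠ 0) (hg : g ∈ S)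
    (hq : q ∈ S) (e : g = ((c : ℤ) : ℂ[X]) * X ^ n + q) : (X ^ n : ℂ[X]) ∈ S := by
  have h1 : ((c : ℤ) : ℂ[X]) * X ^ n ∈ S := by
    have : ((c : ℤ) : ℂ[X]) * X ^ n = g - q := by rw [e]; ring
    rw [this]; exact S.sub_mem hg hq
  have h2 : (X ^ n : ℂ[X]) = ((c : ℂ))⁻¹ • (((c : ℤ) : ℂ[X]) * X ^ n) := by
    have : ((c : ℤ) : ℂ[X]) * X ^ n = (c : ℂ) • (X ^ n : ℂ[X]) := by
      rw [smul_eq_C_mul]; simp
    rw [this, smul_smul, inv_mul_cancel₀ (by exact_mod_cast hc), one_smul]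
  rw [h2]
  exact S.smul_mem _ h1

/-- the squares at the base point -/
noncomputable def Y0 : Fin 4 → ℂ[X] := ![1, X ^ 10, X ^ 16, (X + X ^ 8) ^ 2]

set_option maxRecDepth 10000 in
set_option maxHeartbeats 4000000 in
theorem elim (S : Submodule ℂ ℂ[X]) (hM : ∀ p : Idx4, prod4 Y0 p ∈ S)
    (hP0 : ∀ a : ℕ, a < 9 → (16 + 4 * X ^ 20 + 4 * X ^ 30 - 2 * X ^ 48) * X ^ a ∈ S)
    (hP1 : ∀ a : ℕ, a < 9 → (4 * X ^ 15 + 12 * X ^ 25 + 4 * X ^ 53) * X ^ a ∈ S)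
    (hP2 : ∀ a : ℕ, a < 9 → (12 * X ^ 50 - 6 * X ^ 40) * X ^ a ∈ S)
    (hP3 : ∀ a : ℕ, a < 9 → (8 * (X + X ^ 8) ^ 7) * X ^ a ∈ S) :
    ∀ i : ℕ, i < 65 → (X ^ i : ℂ[X]) ∈ S := by
  have h0 : (X ^ 0 : ℂ[X]) ∈ S := slv S (1) (by norm_num) (hM (0, 0, 0, 0)) (q := 0)
    S.zero_mem (by (simp only [prod4, Y0, Matrix.cons_val]; push_cast; ring))
  have h10 : (X ^ 10 : ℂ[X]) ∈ S := slv S (1) (by norm_num) (hM (0, 0, 0, 1)) (q := 0)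
    S.zero_mem (by (simp only [prod4, Y0, Matrix.cons_val]; push_cast; ring))
  have h16 : (X ^ 16 : ℂ[X]) ∈ S := slv S (1) (by norm_num) (hM (0, 0, 0, 2)) (q := 0)
    S.zero_mem (by (simp only [prod4, Y0, Matrix.cons_val]; push_cast; ring))
  have h20 : (X ^ 20 : ℂ[X]) ∈ S := slv S (1) (by norm_num) (hM (0, 0, 1, 1)) (q := 0)
    S.zero_mem (by (simp only [prod4, Y0, Matrix.cons_val]; push_cast; ring))
  have h26 : (X ^ 26 : ℂ[X]) ∈ S := slv S (1) (by norm_num) (hM (0, 0, 1, 2)) (q := 0)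
    S.zero_mem (by (simp only [prod4, Y0, Matrix.cons_val]; push_cast; ring))
  have h32 : (X ^ 32 : ℂ[X]) ∈ S := slv S (1) (by norm_num) (hM (0, 0, 2, 2)) (q := 0)
    S.zero_mem (by (simp only [prod4, Y0, Matrix.cons_val]; push_cast; ring))
  have h30 : (X ^ 30 : ℂ[X]) ∈ S := slv S (1) (by norm_num) (hM (0, 1, 1, 1)) (q := 0)
    S.zero_mem (by (simp only [prod4, Y0, Matrix.cons_val]; push_cast; ring))
  have h36 : (X ^ 36 : ℂ[X]) ∈ S := slv S (1) (by norm_num) (hM (0, 1, 1, 2)) (q := 0)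
    S.zero_mem (by (simp only [prod4, Y0, Matrix.cons_val]; push_cast; ring))
  have h42 : (X ^ 42 : ℂ[X]) ∈ S := slv S (1) (by norm_num) (hM (0, 1, 2, 2)) (q := 0)
    S.zero_mem (by (simp only [prod4, Y0, Matrix.cons_val]; push_cast; ring))
  have h48 : (X ^ 48 : ℂ[X]) ∈ S := slv S (1) (by norm_num) (hM (0, 2, 2, 2)) (q := 0)
    S.zero_mem (by (simp only [prod4, Y0, Matrix.cons_val]; push_cast; ring))
  have h40 : (X ^ 40 : ℂ[X]) ∈ S := slv S (1) (by norm_num) (hM (1, 1, 1, 1)) (q := 0)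
    S.zero_mem (by (simp only [prod4, Y0, Matrix.cons_val]; push_cast; ring))
  have h46 : (X ^ 46 : ℂ[X]) ∈ S := slv S (1) (by norm_num) (hM (1, 1, 1, 2)) (q := 0)
    S.zero_mem (by (simp only [prod4, Y0, Matrix.cons_val]; push_cast; ring))
  have h39 : (X ^ 39 : ℂ[X]) ∈ S := slv S (2) (by norm_num) (hM (1, 1, 1, 3)) (q := ((1 : ℤ) : ℂ[X]) * X ^ 32 + ((1 : ℤ) : ℂ[X]) * X ^ 46)
    (S.add_mem (mulI S (1) h32) (mulI S (1) h46)) (by (simp only [prod4, Y0, Matrix.cons_val]; push_cast; ring))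
  have h52 : (X ^ 52 : ℂ[X]) ∈ S := slv S (1) (by norm_num) (hM (1, 1, 2, 2)) (q := 0)
    S.zero_mem (by (simp only [prod4, Y0, Matrix.cons_val]; push_cast; ring))
  have h58 : (X ^ 58 : ℂ[X]) ∈ S := slv S (1) (by norm_num) (hM (1, 2, 2, 2)) (q := 0)
    S.zero_mem (by (simp only [prod4, Y0, Matrix.cons_val]; push_cast; ring))
  have h64 : (X ^ 64 : ℂ[X]) ∈ S := slv S (1) (by norm_num) (hM (2, 2, 2, 2)) (q := 0)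
    S.zero_mem (by (simp only [prod4, Y0, Matrix.cons_val]; push_cast; ring))
  have h54 : (X ^ 54 : ℂ[X]) ∈ S := slv S (4) (by norm_num) (hP1 1 (by norm_num)) (q := ((4 : ℤ) : ℂ[X]) * X ^ 16 + ((12 : ℤ) : ℂ[X]) * X ^ 26)
    (S.add_mem (mulI S (4) h16) (mulI S (12) h26)) (by (push_cast; ring))
  have h50 : (X ^ 50 : ℂ[X]) ∈ S := slv S (12) (by norm_num) (hP2 0 (by norm_num)) (q := ((-6 : ℤ) : ℂ[X]) * X ^ 40)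
    (mulI S (-6) h40) (by (push_cast; ring))
  have h44 : (X ^ 44 : ℂ[X]) ∈ S := slv S (-6) (by norm_num) (hP2 4 (by norm_num)) (q := ((12 : ℤ) : ℂ[X]) * X ^ 54)
    (mulI S (12) h54) (by (push_cast; ring))
  have h56 : (X ^ 56 : ℂ[X]) ∈ S := slv S (12) (by norm_num) (hP2 6 (by norm_num)) (q := ((-6 : ℤ) : ℂ[X]) * X ^ 46)
    (mulI S (-6) h46) (by (push_cast; ring))
  have h51 : (X ^ 51 : ℂ[X]) ∈ S := slv S (2) (by norm_num) (hM (1, 2, 2, 3)) (q := ((1 : ℤ) : ℂ[X]) * X ^ 44 + ((1 : ℤ) : ℂ[X]) * X ^ 58)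
    (S.add_mem (mulI S (1) h44) (mulI S (1) h58)) (by (simp only [prod4, Y0, Matrix.cons_val]; push_cast; ring))
  have h37 : (X ^ 37 : ℂ[X]) ∈ S := slv S (4) (by norm_num) (hM (1, 2, 3, 3)) (q := ((1 : ℤ) : ℂ[X]) * X ^ 30 + ((6 : ℤ) : ℂ[X]) * X ^ 44 + ((4 : ℤ) : ℂ[X]) * X ^ 51 + ((1 : ℤ) : ℂ[X]) * X ^ 58)
    (S.add_mem (S.add_mem (S.add_mem (mulI S (1) h30) (mulI S (6) h44)) (mulI S (4) h51)) (mulI S (1) h58)) (by (simp only [prod4, Y0, Matrix.cons_val]; push_cast; ring))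
  have h23 : (X ^ 23 : ℂ[X]) ∈ S := slv S (6) (by norm_num) (hM (1, 3, 3, 3)) (q := ((1 : ℤ) : ℂ[X]) * X ^ 16 + ((15 : ℤ) : ℂ[X]) * X ^ 30 + ((20 : ℤ) : ℂ[X]) * X ^ 37 + ((15 : ℤ) : ℂ[X]) * X ^ 44 + ((6 : ℤ) : ℂ[X]) * X ^ 51 + ((1 : ℤ) : ℂ[X]) * X ^ 58)
    (S.add_mem (S.add_mem (S.add_mem (S.add_mem (S.add_mem (mulI S (1) h16) (mulI S (15) h30)) (mulI S (20) h37)) (mulI S (15) h44)) (mulI S (6) h51)) (mulI S (1) h58)) (by (simp only [prod4, Y0, Matrix.cons_val]; push_cast; ring))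
  have h57 : (X ^ 57 : ℂ[X]) ∈ S := slv S (2) (by norm_num) (hM (2, 2, 2, 3)) (q := ((1 : ℤ) : ℂ[X]) * X ^ 50 + ((1 : ℤ) : ℂ[X]) * X ^ 64)
    (S.add_mem (mulI S (1) h50) (mulI S (1) h64)) (by (simp only [prod4, Y0, Matrix.cons_val]; push_cast; ring))
  have h43 : (X ^ 43 : ℂ[X]) ∈ S := slv S (4) (by norm_num) (hM (2, 2, 3, 3)) (q := ((1 : ℤ) : ℂ[X]) * X ^ 36 + ((6 : ℤ) : ℂ[X]) * X ^ 50 + ((4 : ℤ) : ℂ[X]) * X ^ 57 + ((1 : ℤ) : ℂ[X]) * X ^ 64)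
    (S.add_mem (S.add_mem (S.add_mem (mulI S (1) h36) (mulI S (6) h50)) (mulI S (4) h57)) (mulI S (1) h64)) (by (simp only [prod4, Y0, Matrix.cons_val]; push_cast; ring))
  have h6 : (X ^ 6 : ℂ[X]) ∈ S := slv S (16) (by norm_num) (hP0 6 (by norm_num)) (q := ((4 : ℤ) : ℂ[X]) * X ^ 26 + ((4 : ℤ) : ℂ[X]) * X ^ 36 + ((-2 : ℤ) : ℂ[X]) * X ^ 54)
    (S.add_mem (S.add_mem (mulI S (4) h26) (mulI S (4) h36)) (mulI S (-2) h54)) (by (push_cast; ring))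
  have h41 : (X ^ 41 : ℂ[X]) ∈ S := slv S (-6) (by norm_num) (hP2 1 (by norm_num)) (q := ((12 : ℤ) : ℂ[X]) * X ^ 51)
    (mulI S (12) h51) (by (push_cast; ring))
  have h53 : (X ^ 53 : ℂ[X]) ∈ S := slv S (12) (by norm_num) (hP2 3 (by norm_num)) (q := ((-6 : ℤ) : ℂ[X]) * X ^ 43)
    (mulI S (-6) h43) (by (push_cast; ring))
  have h47 : (X ^ 47 : ℂ[X]) ∈ S := slv S (-6) (by norm_num) (hP2 7 (by norm_num)) (q := ((12 : ℤ) : ℂ[X]) * X ^ 57)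
    (mulI S (12) h57) (by (push_cast; ring))
  have h9 : (X ^ 9 : ℂ[X]) ∈ S := slv S (8) (by norm_num) (hP3 2 (by norm_num)) (q := ((56 : ℤ) : ℂ[X]) * X ^ 16 + ((168 : ℤ) : ℂ[X]) * X ^ 23 + ((280 : ℤ) : ℂ[X]) * X ^ 30 + ((280 : ℤ) : ℂ[X]) * X ^ 37 + ((168 : ℤ) : ℂ[X]) * X ^ 44 + ((56 : ℤ) : ℂ[X]) * X ^ 51 + ((8 : ℤ) : ℂ[X]) * X ^ 58)
    (S.add_mem (S.add_mem (S.add_mem (S.add_mem (S.add_mem (S.add_mem (mulI S (56) h16) (mulI S (168) h23)) (mulI S (280) h30)) (mulI S (280) h37)) (mulI S (168) h44)) (mulI S (56) h51)) (mulI S (8) h58)) (by (push_cast; ring))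
  have h2 : (X ^ 2 : ℂ[X]) ∈ S := slv S (1) (by norm_num) (hM (0, 0, 0, 3)) (q := ((2 : ℤ) : ℂ[X]) * X ^ 9 + ((1 : ℤ) : ℂ[X]) * X ^ 16)
    (S.add_mem (mulI S (2) h9) (mulI S (1) h16)) (by (simp only [prod4, Y0, Matrix.cons_val]; push_cast; ring))
  have h34 : (X ^ 34 : ℂ[X]) ∈ S := slv S (1) (by norm_num) (hM (0, 2, 2, 3)) (q := ((2 : ℤ) : ℂ[X]) * X ^ 41 + ((1 : ℤ) : ℂ[X]) * X ^ 48)
    (S.add_mem (mulI S (2) h41) (mulI S (1) h48)) (by (simp only [prod4, Y0, Matrix.cons_val]; push_cast; ring))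
  have h27 : (X ^ 27 : ℂ[X]) ∈ S := slv S (4) (by norm_num) (hM (0, 2, 3, 3)) (q := ((1 : ℤ) : ℂ[X]) * X ^ 20 + ((6 : ℤ) : ℂ[X]) * X ^ 34 + ((4 : ℤ) : ℂ[X]) * X ^ 41 + ((1 : ℤ) : ℂ[X]) * X ^ 48)
    (S.add_mem (S.add_mem (S.add_mem (mulI S (1) h20) (mulI S (6) h34)) (mulI S (4) h41)) (mulI S (1) h48)) (by (simp only [prod4, Y0, Matrix.cons_val]; push_cast; ring))
  have h13 : (X ^ 13 : ℂ[X]) ∈ S := slv S (6) (by norm_num) (hM (0, 3, 3, 3)) (q := ((1 : ℤ) : ℂ[X]) * X ^ 6 + ((15 : ℤ) : ℂ[X]) * X ^ 20 + ((20 : ℤ) : ℂ[X]) * X ^ 27 + ((15 : ℤ) : ℂ[X]) * X ^ 34 + ((6 : ℤ) : ℂ[X]) * X ^ 41 + ((1 : ℤ) : ℂ[X]) * X ^ 48)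
    (S.add_mem (S.add_mem (S.add_mem (S.add_mem (S.add_mem (mulI S (1) h6) (mulI S (15) h20)) (mulI S (20) h27)) (mulI S (15) h34)) (mulI S (6) h41)) (mulI S (1) h48)) (by (simp only [prod4, Y0, Matrix.cons_val]; push_cast; ring))
  have h22 : (X ^ 22 : ℂ[X]) ∈ S := slv S (4) (by norm_num) (hP0 2 (by norm_num)) (q := ((16 : ℤ) : ℂ[X]) * X ^ 2 + ((4 : ℤ) : ℂ[X]) * X ^ 32 + ((-2 : ℤ) : ℂ[X]) * X ^ 50)
    (S.add_mem (S.add_mem (mulI S (16) h2) (mulI S (4) h32)) (mulI S (-2) h50)) (by (push_cast; ring))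
  have h60 : (X ^ 60 : ℂ[X]) ∈ S := slv S (4) (by norm_num) (hP1 7 (by norm_num)) (q := ((4 : ℤ) : ℂ[X]) * X ^ 22 + ((12 : ℤ) : ℂ[X]) * X ^ 32)
    (S.add_mem (mulI S (4) h22) (mulI S (12) h32)) (by (push_cast; ring))
  have h29 : (X ^ 29 : ℂ[X]) ∈ S := slv S (2) (by norm_num) (hM (0, 1, 1, 3)) (q := ((1 : ℤ) : ℂ[X]) * X ^ 22 + ((1 : ℤ) : ℂ[X]) * X ^ 36)
    (S.add_mem (mulI S (1) h22) (mulI S (1) h36)) (by (simp only [prod4, Y0, Matrix.cons_val]; push_cast; ring))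
  have h19 : (X ^ 19 : ℂ[X]) ∈ S := slv S (4) (by norm_num) (hP1 4 (by norm_num)) (q := ((12 : ℤ) : ℂ[X]) * X ^ 29 + ((4 : ℤ) : ℂ[X]) * X ^ 57)
    (S.add_mem (mulI S (12) h29) (mulI S (4) h57)) (by (push_cast; ring))
  have h15 : (X ^ 15 : ℂ[X]) ∈ S := slv S (8) (by norm_num) (hP3 8 (by norm_num)) (q := ((56 : ℤ) : ℂ[X]) * X ^ 22 + ((168 : ℤ) : ℂ[X]) * X ^ 29 + ((280 : ℤ) : ℂ[X]) * X ^ 36 + ((280 : ℤ) : ℂ[X]) * X ^ 43 + ((168 : ℤ) : ℂ[X]) * X ^ 50 + ((56 : ℤ) : ℂ[X]) * X ^ 57 + ((8 : ℤ) : ℂ[X]) * X ^ 64)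
    (S.add_mem (S.add_mem (S.add_mem (S.add_mem (S.add_mem (S.add_mem (mulI S (56) h22) (mulI S (168) h29)) (mulI S (280) h36)) (mulI S (280) h43)) (mulI S (168) h50)) (mulI S (56) h57)) (mulI S (8) h64)) (by (push_cast; ring))
  have h12 : (X ^ 12 : ℂ[X]) ∈ S := slv S (1) (by norm_num) (hM (0, 0, 1, 3)) (q := ((2 : ℤ) : ℂ[X]) * X ^ 19 + ((1 : ℤ) : ℂ[X]) * X ^ 26)
    (S.add_mem (mulI S (2) h19) (mulI S (1) h26)) (by (simp only [prod4, Y0, Matrix.cons_val]; push_cast; ring))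
  have h8 : (X ^ 8 : ℂ[X]) ∈ S := slv S (1) (by norm_num) (hM (3, 3, 3, 3)) (q := ((8 : ℤ) : ℂ[X]) * X ^ 15 + ((28 : ℤ) : ℂ[X]) * X ^ 22 + ((56 : ℤ) : ℂ[X]) * X ^ 29 + ((70 : ℤ) : ℂ[X]) * X ^ 36 + ((56 : ℤ) : ℂ[X]) * X ^ 43 + ((28 : ℤ) : ℂ[X]) * X ^ 50 + ((8 : ℤ) : ℂ[X]) * X ^ 57 + ((1 : ℤ) : ℂ[X]) * X ^ 64)
    (S.add_mem (S.add_mem (S.add_mem (S.add_mem (S.add_mem (S.add_mem (S.add_mem (mulI S (8) h15) (mulI S (28) h22)) (mulI S (56) h29)) (mulI S (70) h36)) (mulI S (56) h43)) (mulI S (28) h50)) (mulI S (8) h57)) (mulI S (1) h64)) (by (simp only [prod4, Y0, Matrix.cons_val]; push_cast; ring))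
  have h25 : (X ^ 25 : ℂ[X]) ∈ S := slv S (12) (by norm_num) (hP1 0 (by norm_num)) (q := ((4 : ℤ) : ℂ[X]) * X ^ 15 + ((4 : ℤ) : ℂ[X]) * X ^ 53)
    (S.add_mem (mulI S (4) h15) (mulI S (4) h53)) (by (push_cast; ring))
  have h18 : (X ^ 18 : ℂ[X]) ∈ S := slv S (1) (by norm_num) (hM (0, 0, 2, 3)) (q := ((2 : ℤ) : ℂ[X]) * X ^ 25 + ((1 : ℤ) : ℂ[X]) * X ^ 32)
    (S.add_mem (mulI S (2) h25) (mulI S (1) h32)) (by (simp only [prod4, Y0, Matrix.cons_val]; push_cast; ring))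
  have h28 : (X ^ 28 : ℂ[X]) ∈ S := slv S (12) (by norm_num) (hP1 3 (by norm_num)) (q := ((4 : ℤ) : ℂ[X]) * X ^ 18 + ((4 : ℤ) : ℂ[X]) * X ^ 56)
    (S.add_mem (mulI S (4) h18) (mulI S (4) h56)) (by (push_cast; ring))
  have h11 : (X ^ 11 : ℂ[X]) ∈ S := slv S (8) (by norm_num) (hP3 4 (by norm_num)) (q := ((56 : ℤ) : ℂ[X]) * X ^ 18 + ((168 : ℤ) : ℂ[X]) * X ^ 25 + ((280 : ℤ) : ℂ[X]) * X ^ 32 + ((280 : ℤ) : ℂ[X]) * X ^ 39 + ((168 : ℤ) : ℂ[X]) * X ^ 46 + ((56 : ℤ) : ℂ[X]) * X ^ 53 + ((8 : ℤ) : ℂ[X]) * X ^ 60)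
    (S.add_mem (S.add_mem (S.add_mem (S.add_mem (S.add_mem (S.add_mem (mulI S (56) h18) (mulI S (168) h25)) (mulI S (280) h32)) (mulI S (280) h39)) (mulI S (168) h46)) (mulI S (56) h53)) (mulI S (8) h60)) (by (push_cast; ring))
  have h4 : (X ^ 4 : ℂ[X]) ∈ S := slv S (1) (by norm_num) (hM (0, 0, 3, 3)) (q := ((4 : ℤ) : ℂ[X]) * X ^ 11 + ((6 : ℤ) : ℂ[X]) * X ^ 18 + ((4 : ℤ) : ℂ[X]) * X ^ 25 + ((1 : ℤ) : ℂ[X]) * X ^ 32)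
    (S.add_mem (S.add_mem (S.add_mem (mulI S (4) h11) (mulI S (6) h18)) (mulI S (4) h25)) (mulI S (1) h32)) (by (simp only [prod4, Y0, Matrix.cons_val]; push_cast; ring))
  have h35 : (X ^ 35 : ℂ[X]) ∈ S := slv S (2) (by norm_num) (hM (0, 1, 2, 3)) (q := ((1 : ℤ) : ℂ[X]) * X ^ 28 + ((1 : ℤ) : ℂ[X]) * X ^ 42)
    (S.add_mem (mulI S (1) h28) (mulI S (1) h42)) (by (simp only [prod4, Y0, Matrix.cons_val]; push_cast; ring))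
  have h24 : (X ^ 24 : ℂ[X]) ∈ S := slv S (4) (by norm_num) (hP0 4 (by norm_num)) (q := ((16 : ℤ) : ℂ[X]) * X ^ 4 + ((4 : ℤ) : ℂ[X]) * X ^ 34 + ((-2 : ℤ) : ℂ[X]) * X ^ 52)
    (S.add_mem (S.add_mem (mulI S (16) h4) (mulI S (4) h34)) (mulI S (-2) h52)) (by (push_cast; ring))
  have h5 : (X ^ 5 : ℂ[X]) ∈ S := slv S (16) (by norm_num) (hP0 5 (by norm_num)) (q := ((4 : ℤ) : ℂ[X]) * X ^ 25 + ((4 : ℤ) : ℂ[X]) * X ^ 35 + ((-2 : ℤ) : ℂ[X]) * X ^ 53)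
    (S.add_mem (S.add_mem (mulI S (4) h25) (mulI S (4) h35)) (mulI S (-2) h53)) (by (push_cast; ring))
  have h38 : (X ^ 38 : ℂ[X]) ∈ S := slv S (4) (by norm_num) (hP0 8 (by norm_num)) (q := ((16 : ℤ) : ℂ[X]) * X ^ 8 + ((4 : ℤ) : ℂ[X]) * X ^ 28 + ((-2 : ℤ) : ℂ[X]) * X ^ 56)
    (S.add_mem (S.add_mem (mulI S (16) h8) (mulI S (4) h28)) (mulI S (-2) h56)) (by (push_cast; ring))
  have h45 : (X ^ 45 : ℂ[X]) ∈ S := slv S (2) (by norm_num) (hM (1, 1, 2, 3)) (q := ((1 : ℤ) : ℂ[X]) * X ^ 38 + ((1 : ℤ) : ℂ[X]) * X ^ 52)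
    (S.add_mem (mulI S (1) h38) (mulI S (1) h52)) (by (simp only [prod4, Y0, Matrix.cons_val]; push_cast; ring))
  have h31 : (X ^ 31 : ℂ[X]) ∈ S := slv S (4) (by norm_num) (hM (1, 1, 3, 3)) (q := ((1 : ℤ) : ℂ[X]) * X ^ 24 + ((6 : ℤ) : ℂ[X]) * X ^ 38 + ((4 : ℤ) : ℂ[X]) * X ^ 45 + ((1 : ℤ) : ℂ[X]) * X ^ 52)
    (S.add_mem (S.add_mem (S.add_mem (mulI S (1) h24) (mulI S (6) h38)) (mulI S (4) h45)) (mulI S (1) h52)) (by (simp only [prod4, Y0, Matrix.cons_val]; push_cast; ring))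
  have h55 : (X ^ 55 : ℂ[X]) ∈ S := slv S (12) (by norm_num) (hP2 5 (by norm_num)) (q := ((-6 : ℤ) : ℂ[X]) * X ^ 45)
    (mulI S (-6) h45) (by (push_cast; ring))
  have h62 : (X ^ 62 : ℂ[X]) ∈ S := slv S (8) (by norm_num) (hP3 6 (by norm_num)) (q := ((8 : ℤ) : ℂ[X]) * X ^ 13 + ((56 : ℤ) : ℂ[X]) * X ^ 20 + ((168 : ℤ) : ℂ[X]) * X ^ 27 + ((280 : ℤ) : ℂ[X]) * X ^ 34 + ((280 : ℤ) : ℂ[X]) * X ^ 41 + ((168 : ℤ) : ℂ[X]) * X ^ 48 + ((56 : ℤ) : ℂ[X]) * X ^ 55)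
    (S.add_mem (S.add_mem (S.add_mem (S.add_mem (S.add_mem (S.add_mem (mulI S (8) h13) (mulI S (56) h20)) (mulI S (168) h27)) (mulI S (280) h34)) (mulI S (280) h41)) (mulI S (168) h48)) (mulI S (56) h55)) (by (push_cast; ring))
  have h7 : (X ^ 7 : ℂ[X]) ∈ S := slv S (16) (by norm_num) (hP0 7 (by norm_num)) (q := ((4 : ℤ) : ℂ[X]) * X ^ 27 + ((4 : ℤ) : ℂ[X]) * X ^ 37 + ((-2 : ℤ) : ℂ[X]) * X ^ 55)
    (S.add_mem (S.add_mem (mulI S (4) h27) (mulI S (4) h37)) (mulI S (-2) h55)) (by (push_cast; ring))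
  have h17 : (X ^ 17 : ℂ[X]) ∈ S := slv S (4) (by norm_num) (hP1 2 (by norm_num)) (q := ((12 : ℤ) : ℂ[X]) * X ^ 27 + ((4 : ℤ) : ℂ[X]) * X ^ 55)
    (S.add_mem (mulI S (12) h27) (mulI S (4) h55)) (by (push_cast; ring))
  have h59 : (X ^ 59 : ℂ[X]) ∈ S := slv S (8) (by norm_num) (hP3 3 (by norm_num)) (q := ((8 : ℤ) : ℂ[X]) * X ^ 10 + ((56 : ℤ) : ℂ[X]) * X ^ 17 + ((168 : ℤ) : ℂ[X]) * X ^ 24 + ((280 : ℤ) : ℂ[X]) * X ^ 31 + ((280 : ℤ) : ℂ[X]) * X ^ 38 + ((168 : ℤ) : ℂ[X]) * X ^ 45 + ((56 : ℤ) : ℂ[X]) * X ^ 52)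
    (S.add_mem (S.add_mem (S.add_mem (S.add_mem (S.add_mem (S.add_mem (mulI S (8) h10) (mulI S (56) h17)) (mulI S (168) h24)) (mulI S (280) h31)) (mulI S (280) h38)) (mulI S (168) h45)) (mulI S (56) h52)) (by (push_cast; ring))
  have h21 : (X ^ 21 : ℂ[X]) ∈ S := slv S (4) (by norm_num) (hP1 6 (by norm_num)) (q := ((12 : ℤ) : ℂ[X]) * X ^ 31 + ((4 : ℤ) : ℂ[X]) * X ^ 59)
    (S.add_mem (mulI S (12) h31) (mulI S (4) h59)) (by (push_cast; ring))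
  have h14 : (X ^ 14 : ℂ[X]) ∈ S := slv S (1) (by norm_num) (hM (0, 1, 3, 3)) (q := ((4 : ℤ) : ℂ[X]) * X ^ 21 + ((6 : ℤ) : ℂ[X]) * X ^ 28 + ((4 : ℤ) : ℂ[X]) * X ^ 35 + ((1 : ℤ) : ℂ[X]) * X ^ 42)
    (S.add_mem (S.add_mem (S.add_mem (mulI S (4) h21) (mulI S (6) h28)) (mulI S (4) h35)) (mulI S (1) h42)) (by (simp only [prod4, Y0, Matrix.cons_val]; push_cast; ring))
  have h49 : (X ^ 49 : ℂ[X]) ∈ S := slv S (56) (by norm_num) (hP3 0 (by norm_num)) (q := ((8 : ℤ) : ℂ[X]) * X ^ 7 + ((56 : ℤ) : ℂ[X]) * X ^ 14 + ((168 : ℤ) : ℂ[X]) * X ^ 21 + ((280 : ℤ) : ℂ[X]) * X ^ 28 + ((280 : ℤ) : ℂ[X]) * X ^ 35 + ((168 : ℤ) : ℂ[X]) * X ^ 42 + ((8 : ℤ) : ℂ[X]) * X ^ 56)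
    (S.add_mem (S.add_mem (S.add_mem (S.add_mem (S.add_mem (S.add_mem (mulI S (8) h7) (mulI S (56) h14)) (mulI S (168) h21)) (mulI S (280) h28)) (mulI S (280) h35)) (mulI S (168) h42)) (mulI S (8) h56)) (by (push_cast; ring))
  have h63 : (X ^ 63 : ℂ[X]) ∈ S := slv S (8) (by norm_num) (hP3 7 (by norm_num)) (q := ((8 : ℤ) : ℂ[X]) * X ^ 14 + ((56 : ℤ) : ℂ[X]) * X ^ 21 + ((168 : ℤ) : ℂ[X]) * X ^ 28 + ((280 : ℤ) : ℂ[X]) * X ^ 35 + ((280 : ℤ) : ℂ[X]) * X ^ 42 + ((168 : ℤ) : ℂ[X]) * X ^ 49 + ((56 : ℤ) : ℂ[X]) * X ^ 56)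
    (S.add_mem (S.add_mem (S.add_mem (S.add_mem (S.add_mem (S.add_mem (mulI S (8) h14) (mulI S (56) h21)) (mulI S (168) h28)) (mulI S (280) h35)) (mulI S (280) h42)) (mulI S (168) h49)) (mulI S (56) h56)) (by (push_cast; ring))
  have h1 : (X ^ 1 : ℂ[X]) ∈ S := slv S (16) (by norm_num) (hP0 1 (by norm_num)) (q := ((4 : ℤ) : ℂ[X]) * X ^ 21 + ((4 : ℤ) : ℂ[X]) * X ^ 31 + ((-2 : ℤ) : ℂ[X]) * X ^ 49)
    (S.add_mem (S.add_mem (mulI S (4) h21) (mulI S (4) h31)) (mulI S (-2) h49)) (by (push_cast; ring))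
  have h33 : (X ^ 33 : ℂ[X]) ∈ S := slv S (256) (by norm_num) (S.sub_mem (hP3 5 (by norm_num)) (mulI S 2 (hP1 8 (by norm_num)))) (q := ((8 : ℤ) : ℂ[X]) * X ^ 12 + ((56 : ℤ) : ℂ[X]) * X ^ 19 + ((-8 : ℤ) : ℂ[X]) * X ^ 23 + ((168 : ℤ) : ℂ[X]) * X ^ 26 + ((280 : ℤ) : ℂ[X]) * X ^ 40 + ((168 : ℤ) : ℂ[X]) * X ^ 47 + ((56 : ℤ) : ℂ[X]) * X ^ 54)
    (S.add_mem (S.add_mem (S.add_mem (S.add_mem (S.add_mem (S.add_mem (mulI S (8) h12) (mulI S (56) h19)) (mulI S (-8) h23)) (mulI S (168) h26)) (mulI S (280) h40)) (mulI S (168) h47)) (mulI S (56) h54)) (by (push_cast; ring))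
  have h61 : (X ^ 61 : ℂ[X]) ∈ S := slv S (4) (by norm_num) (hP1 8 (by norm_num)) (q := ((4 : ℤ) : ℂ[X]) * X ^ 23 + ((12 : ℤ) : ℂ[X]) * X ^ 33)
    (S.add_mem (mulI S (4) h23) (mulI S (12) h33)) (by (push_cast; ring))
  have h3 : (X ^ 3 : ℂ[X]) ∈ S := slv S (16) (by norm_num) (hP0 3 (by norm_num)) (q := ((4 : ℤ) : ℂ[X]) * X ^ 23 + ((4 : ℤ) : ℂ[X]) * X ^ 33 + ((-2 : ℤ) : ℂ[X]) * X ^ 51)
    (S.add_mem (S.add_mem (mulI S (4) h23) (mulI S (4) h33)) (mulI S (-2) h51)) (by (push_cast; ring))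
  intro i hi
  interval_cases i
  exacts [h0, h1, h2, h3, h4, h5, h6, h7, h8, h9, h10, h11, h12, h13, h14, h15, h16, h17, h18, h19, h20, h21, h22, h23, h24, h25, h26, h27, h28, h29, h30, h31, h32, h33, h34, h35, h36, h37, h38, h39, h40, h41, h42, h43, h44, h45, h46, h47, h48, h49, h50, h51, h52, h53, h54, h55, h56, h57, h58, h59, h60, h61, h62, h63, h64]

end Pool.Agent.H20.Uni
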