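import Mathlib
import Pool.Agent.H20.UniElim

set_option autoImplicit false

namespace Pool.Agent.H20.Uni

open Topology

/-- evaluation of univariate polynomials at `0, …, 64` -/
noncomputable def evL : Polynomial ℂ →ₗ[ℂ] (Fin 65 → ℂ) :=
  LinearMap.pi (fun k => Polynomial.leval ((k : ℕ) : ℂ))

theorem evL_apply (p : Polynomial ℂ) (k : Fin 65) : evL p k = p.eval ((k : ℕ) : ℂ) := rfl

noncomputable def base : Par := (F0, 0)

theorem yv_F0 (x : ℂ) (j : Fin 4) : yv F0 x j = (Y0 j).eval x := by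
  unfold yv
  rw [lin_F0]
  fin_cases j <;> simp [Y0] <;> ring

theorem prod4_eval (x : ℂ) (p : Idx4) : prod4 (yv F0 x) p = (prod4 Y0 p).eval x := by
  unfold prod4
  simp only [yv_F0, Polynomial.eval_mul]

theorem dir_g (p : Idx4) :
    fderiv ℂ fmap base ((0, Pi.single p 1) : Par) = evL (prod4 Y0 p) := by
  apply fderiv_apply_of_path
  intro k
  set x : ℂ := ((k : ℕ) : ℂ) with hx
  have h1 : (fun ε : ℂ => fmap (base + ε • ((0, Pi.single p 1) : Par)) k) =
      fun ε : ℂ => G0 (yv F0 x) + ε * prod4 (yv F0 x) p := by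
    funext ε
    simp only [fmap, fval, base, Prod.smul_mk, Prod.mk_add_mk, smul_zero, add_zero, zero_add, ← hx]
    congr 1
    rw [Finset.sum_eq_single p]
    · simp
    · intro q _ hq
      simp [Pi.single_eq_of_ne hq]
    · intro h; exact absurd (Finset.mem_univ p) h
  rw [h1, evL_apply, ← hx, ← prod4_eval]
  have := ((hasDerivAt_id (0:ℂ)).mul_const (prod4 (yv F0 x) p)).const_add (G0 (yv F0 x))
  simpa using this

/-- polynomial attached to a direction -/
noncomputable def dpoly (D : Fin 4 → Fin 9 → ℂ) : Polynomial ℂ :=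
  (16 + 4 * Polynomial.X ^ 20 + 4 * Polynomial.X ^ 30 - 2 * Polynomial.X ^ 48) *
      (∑ a : Fin 9, Polynomial.C (D 0 a) * Polynomial.X ^ (a : ℕ))
    + (4 * Polynomial.X ^ 15 + 12 * Polynomial.X ^ 25 + 4 * Polynomial.X ^ 53) *
      (∑ a : Fin 9, Polynomial.C (D 1 a) * Polynomial.X ^ (a : ℕ))
    + (12 * Polynomial.X ^ 50 - 6 * Polynomial.X ^ 40) *
      (∑ a : Fin 9, Polynomial.C (D 2 a) * Polynomial.X ^ (a : ℕ))
    + (8 * (Polynomial.X + Polynomial.X ^ 8) ^ 7) *
      (∑ a : Fin 9, Polynomial.C (D 3 a) * Polynomial.X ^ (a : ℕ))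

theorem eval_lin (D : Fin 4 → Fin 9 → ℂ) (x : ℂ) (j : Fin 4) :
    (∑ a : Fin 9, Polynomial.C (D j a) * Polynomial.X ^ (a : ℕ)).eval x = lin D x j := by
  simp [lin, Polynomial.eval_finsetSum]

theorem dir_F (D : Fin 4 → Fin 9 → ℂ) :
    fderiv ℂ fmap base ((D, 0) : Par) = evL (dpoly D) := by
  apply fderiv_apply_of_path
  intro k
  set x : ℂ := ((k : ℕ) : ℂ) with hx
  have h1 : (fun ε : ℂ => fmap (base + ε • ((D, 0) : Par)) k) =
      fun ε : ℂ => G0 (fun j => (lin F0 x j + ε * lin D x j)^2) := by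
    funext ε
    simp only [fmap, fval, base, Prod.smul_mk, Prod.mk_add_mk, smul_zero, add_zero, ← hx]
    simp only [Pi.zero_apply, zero_mul, Finset.sum_const_zero, add_zero]
    congr 1
    funext j
    unfold yv
    rw [lin_add]
  rw [h1, evL_apply, ← hx]
  refine (hasDerivAt_G0 (lin F0 x) (lin D x)).congr_deriv ?_
  unfold dpoly
  simp only [Polynomial.eval_add, Polynomial.eval_sub, Polynomial.eval_mul, eval_lin,
    Polynomial.eval_pow, Polynomial.eval_X, Polynomial.eval_ofNat]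
  rw [lin_F0]
  simp only [Matrix.cons_val]
  ring

/-- the space of polynomials hit by the derivative -/
noncomputable def SS : Submodule ℂ (Polynomial ℂ) :=
  (LinearMap.range (fderiv ℂ fmap base : Par →L[ℂ] (Fin 65 → ℂ)).toLinearMap).comap evL

theorem prod4_mem_SS (p : Idx4) : prod4 Y0 p ∈ SS :=
  ⟨((0, Pi.single p 1) : Par), dir_g p⟩

theorem dpoly_mem_SS (D : Fin 4 → Fin 9 → ℂ) : dpoly D ∈ SS := ⟨((D, 0) : Par), dir_F D⟩

theorem sum_single (a : ℕ) (ha : a < 9) (j i : Fin 4) :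
    (∑ b : Fin 9, Polynomial.C ((Pi.single j (Pi.single (⟨a, ha⟩ : Fin 9) (1 : ℂ)) :
      Fin 4 → Fin 9 → ℂ) i b) * Polynomial.X ^ (b : ℕ)) =
      if i = j then (Polynomial.X ^ a : Polynomial ℂ) else 0 := by
  by_cases h : i = j
  · subst h
    rw [if_pos rfl]
    simp only [Pi.single_eq_same]
    rw [Finset.sum_eq_single (⟨a, ha⟩ : Fin 9)]
    · simp
    · intro b _ hb
      simp [Pi.single_eq_of_ne hb]
    · intro h; exact absurd (Finset.mem_univ _) h
  · rw [if_neg h]
    simp [Pi.single_eq_of_ne h]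

theorem all_mem_SS : ∀ i : ℕ, i < 65 → (Polynomial.X ^ i : Polynomial ℂ) ∈ SS := by
  refine elim SS prod4_mem_SS ?_ ?_ ?_ ?_
  · intro a ha
    have := dpoly_mem_SS (Pi.single 0 (Pi.single (⟨a, ha⟩ : Fin 9) (1 : ℂ)))
    unfold dpoly at this
    simp only [sum_single] at this
    simpa using this
  · intro a ha
    have := dpoly_mem_SS (Pi.single 1 (Pi.single (⟨a, ha⟩ : Fin 9) (1 : ℂ)))
    unfold dpoly at this
    simp only [sum_single] at this
    simpa using this
  · intro a ha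
    have := dpoly_mem_SS (Pi.single 2 (Pi.single (⟨a, ha⟩ : Fin 9) (1 : ℂ)))
    unfold dpoly at this
    simp only [sum_single] at this
    simpa using this
  · intro a ha
    have := dpoly_mem_SS (Pi.single 3 (Pi.single (⟨a, ha⟩ : Fin 9) (1 : ℂ)))
    unfold dpoly at this
    simp only [sum_single] at this
    simpa using this

theorem deg_lt_mem_SS (p : Polynomial ℂ) (hp : p.natDegree < 65) : p ∈ SS := by
  rw [p.as_sum_range_C_mul_X_pow]
  refine Submodule.sum_mem _ (fun i hi => ?_)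
  rw [← Polynomial.smul_eq_C_mul]
  exact SS.smul_mem _ (all_mem_SS i (by have := Finset.mem_range.mp hi; omega))

theorem range_eq_top : LinearMap.range (fderiv ℂ fmap base : Par →L[ℂ] (Fin 65 → ℂ)).toLinearMap = ⊤ := by
  rw [eq_top_iff]
  intro v _
  have hinj : Set.InjOn (fun k : Fin 65 => ((k : ℕ) : ℂ)) (Finset.univ : Finset (Fin 65)) := by
    intro a _ b _ hab
    have hab' : ((a : ℕ) : ℂ) = ((b : ℕ) : ℂ) := hab
    exact Fin.ext (by exact_mod_cast hab')
  set p := Lagrange.interpolate Finset.univ (fun k : Fin 65 => ((k : ℕ) : ℂ)) v with hp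
  have h1 : evL p = v := by
    funext k
    rw [evL_apply]
    exact Lagrange.eval_interpolate_at_node v hinj (Finset.mem_univ k)
  have hdeg : p.natDegree < 65 := by
    have hd := Lagrange.degree_interpolate_lt v hinj
    rw [Finset.card_univ, Fintype.card_fin, ← hp] at hd
    by_cases hp0 : p = 0
    · rw [hp0, Polynomial.natDegree_zero]; norm_num
    · exact (Polynomial.natDegree_lt_iff_degree_lt hp0).mpr hd
  have := deg_lt_mem_SS p hdeg
  have h2 : evL p ∈ LinearMap.range (fderiv ℂ fmap base : Par →L[ℂ] (Fin 65 → ℂ)).toLinearMap := this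
  rwa [h1] at h2

theorem range_fmap_nhds : Set.range fmap ∈ 𝓝 (fmap base) := by
  have h1 : HasStrictFDerivAt fmap (fderiv ℂ fmap base) base :=
    (fmap_contDiff.contDiffAt).hasStrictFDerivAt (by norm_num)
  have h2 := h1.map_nhds_eq_of_surj range_eq_top
  rw [← h2]
  exact Filter.mem_map.mpr (Filter.univ_mem' (fun t => ⟨t, rfl⟩))

end Pool.Agent.H20.Uni
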