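import Mathlib
import Pool.Agent.H20.UniSurj

set_option autoImplicit false

namespace Pool.Agent.H20.Uni

open MvPolynomial Topology

/-- the point `(x, 1, 1, …)` -/
noncomputable def pt (x : ℂ) : ℕ → ℂ := fun n => if n = 0 then x else 1

theorem eval_bform (n : ℕ) (a : Fin (n+1) → ℂ) (x : ℂ) :
    eval (pt x) (bform n a) = ∑ i, a i * x ^ (i : ℕ) := by
  simp [bform, pt]

theorem coeff_bform_mon (n : ℕ) (a : Fin (n+1) → ℂ) (i : Fin (n+1)) :
    coeff (mon n i) (bform n a) = a i := by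
  classical
  unfold bform
  rw [coeff_sum, Finset.sum_eq_single i]
  · have : (X 0 ^ (i:ℕ) * X 1 ^ (n - (i:ℕ)) : MvPolynomial ℕ ℂ) = monomial (mon n i) 1 := by
      rw [mon, X_pow_eq_monomial, X_pow_eq_monomial, monomial_mul, one_mul]
    rw [this, coeff_C_mul, coeff_monomial, if_pos rfl, mul_one]
  · intro j _ hj
    have : (X 0 ^ (j:ℕ) * X 1 ^ (n - (j:ℕ)) : MvPolynomial ℕ ℂ) = monomial (mon n j) 1 := by
      rw [mon, X_pow_eq_monomial, X_pow_eq_monomial, monomial_mul, one_mul]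
    rw [this, coeff_C_mul, coeff_monomial, if_neg, mul_zero]
    intro h
    exact hj (Fin.ext (mon_injective n h))
  · intro h; exact absurd (Finset.mem_univ i) h

theorem coeff_bform_ne (n : ℕ) (a : Fin (n+1) → ℂ) (s : ℕ →₀ ℕ) (hs : ∀ i : Fin (n+1), mon n i ≠ s) :
    coeff s (bform n a) = 0 := by
  classical
  unfold bform
  rw [coeff_sum]
  refine Finset.sum_eq_zero (fun j _ => ?_)
  have : (X 0 ^ (j:ℕ) * X 1 ^ (n - (j:ℕ)) : MvPolynomial ℕ ℂ) = monomial (mon n j) 1 := by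
    rw [mon, X_pow_eq_monomial, X_pow_eq_monomial, monomial_mul, one_mul]
  rw [this, coeff_C_mul, coeff_monomial, if_neg (hs j), mul_zero]

noncomputable def Fv (t : Par) (j : ℕ) : MvPolynomial ℕ ℂ := if h : j < 4 then bform 8 (t.1 ⟨j, h⟩) else 0

noncomputable def Gv (t : Par) : MvPolynomial ℕ ℂ :=
  G0 (fun j : Fin 4 => (X (j : ℕ) : MvPolynomial ℕ ℂ)) +
    ∑ p, C (t.2 p) * prod4 (fun j : Fin 4 => (X (j : ℕ) : MvPolynomial ℕ ℂ)) p

noncomputable def qv (t : Par) : ℕ → MvPolynomial ℕ ℂ := fun a => if a = 0 then Gv t else 0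

theorem X_mem_Lin (d : ℕ) (j : Fin d) : (X (j:ℕ) : MvPolynomial ℕ ℂ) ∈ Lin d :=
  Submodule.subset_span ⟨j, rfl⟩

theorem prod4_mem (p : Idx4) : prod4 (fun j : Fin 4 => (X (j : ℕ) : MvPolynomial ℕ ℂ)) p ∈ (Lin 4) ^ 4 := by
  have h : ∀ j : Fin 4, (X (j:ℕ) : MvPolynomial ℕ ℂ) ∈ Lin 4 := X_mem_Lin 4
  rw [pow_succ, pow_succ, pow_succ, pow_one]
  exact Submodule.mul_mem_mul (Submodule.mul_mem_mul (Submodule.mul_mem_mul (h _) (h _)) (h _)) (h _)

theorem Gv_mem (t : Par) : Gv t ∈ (Lin 4) ^ 4 := by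
  unfold Gv
  refine Submodule.add_mem _ ?_ (Submodule.sum_mem _ (fun p _ => ?_))
  · have e : G0 (fun j : Fin 4 => (X (j : ℕ) : MvPolynomial ℕ ℂ)) =
        (2:ℂ) • prod4 (fun j : Fin 4 => (X (j : ℕ) : MvPolynomial ℕ ℂ)) (0,0,0,0)
        + prod4 (fun j : Fin 4 => (X (j : ℕ) : MvPolynomial ℕ ℂ)) (0,0,1,1)
        + (2:ℂ) • prod4 (fun j : Fin 4 => (X (j : ℕ) : MvPolynomial ℕ ℂ)) (0,1,1,1)
        - prod4 (fun j : Fin 4 => (X (j : ℕ) : MvPolynomial ℕ ℂ)) (0,2,2,2)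
        + (2:ℂ) • prod4 (fun j : Fin 4 => (X (j : ℕ) : MvPolynomial ℕ ℂ)) (1,2,2,2)
        + prod4 (fun j : Fin 4 => (X (j : ℕ) : MvPolynomial ℕ ℂ)) (3,3,3,3) := by
      have h2 : (C (2 : ℂ) : MvPolynomial ℕ ℂ) = 2 := by
        rw [← map_ofNat (C : ℂ →+* MvPolynomial ℕ ℂ) 2]
      simp only [smul_eq_C_mul, h2]
      unfold G0 prod4
      ring
    rw [e]
    refine Submodule.add_mem _ (Submodule.add_mem _ (Submodule.sub_mem _ (Submodule.add_mem _
      (Submodule.add_mem _ ?_ ?_) ?_) ?_) ?_) ?_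
    · exact Submodule.smul_mem _ _ (prod4_mem _)
    · exact prod4_mem _
    · exact Submodule.smul_mem _ _ (prod4_mem _)
    · exact prod4_mem _
    · exact Submodule.smul_mem _ _ (prod4_mem _)
    · exact prod4_mem _
  · rw [← smul_eq_C_mul]
    exact Submodule.smul_mem _ _ (prod4_mem p)

theorem qv_mem (t : Par) (a : ℕ) : qv t a ∈ (Lin 4) ^ 4 := by
  unfold qv
  split_ifs
  · exact Gv_mem t
  · exact Submodule.zero_mem _

theorem Fv_mem (t : Par) (j : ℕ) : Fv t j ∈ (Lin 2) ^ 8 := by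
  unfold Fv
  split_ifs with h
  · unfold bform
    refine Submodule.sum_mem _ (fun i _ => ?_)
    rw [← smul_eq_C_mul]
    refine Submodule.smul_mem _ _ ?_
    have h0 : (X 0 : MvPolynomial ℕ ℂ) ∈ Lin 2 := X_mem_Lin 2 0
    have h1 : (X 1 : MvPolynomial ℕ ℂ) ∈ Lin 2 := X_mem_Lin 2 1
    have e : (Lin 2) ^ 8 = (Lin 2) ^ (i : ℕ) * (Lin 2) ^ (8 - (i : ℕ)) := by
      rw [← pow_add]; congr 1; have := i.isLt; omega
    rw [e]
    exact Submodule.mul_mem_mul (Submodule.pow_mem_pow _ h0 _) (Submodule.pow_mem_pow _ h1 _)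
  · exact Submodule.zero_mem _

/-- the output form -/
noncomputable def out (t : Par) : MvPolynomial ℕ ℂ := aeval (fun j => (Fv t j) ^ 2) (Gv t)

theorem eval_Fv (t : Par) (x : ℂ) (j : Fin 4) : eval (pt x) (Fv t j) = lin t.1 x j := by
  unfold Fv
  rw [dif_pos j.isLt, eval_bform]
  rfl

theorem eval_out (t : Par) (x : ℂ) : eval (pt x) (out t) = fval t x := by
  have h : ∀ j : Fin 4, eval (pt x) (aeval (fun j => (Fv t j) ^ 2) (X (j : ℕ) : MvPolynomial ℕ ℂ)) =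
      yv t.1 x j := by
    intro j
    rw [aeval_X, map_pow, eval_Fv]; rfl
  unfold out Gv fval G0 prod4
  simp only [map_add, map_sub, map_mul, map_pow, map_sum, map_ofNat]
  have h0 := h 0
  have h1 := h 1
  have h2 := h 2
  have h3 := h 3
  simp only [h]
  congr 1
  refine Finset.sum_congr rfl (fun p _ => ?_)
  congr 1
  simp

end Pool.Agent.H20.Uni
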