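import Mathlib
import Pool.Agent.H20.UniFill

/-
A minimal filling width vector that is not unimodal (activation degree 2, seven layers, input width 2,
output width 1).

Outputs are binary forms of degree 64, a space of dimension 65.

* If the widths at positions 3 and 4 are at most 4, the output has the shape
  `G (F_1^2, ..., F_4^2)` with `F_j` a combination of the squares of four binary quartics and `G` a
  quartic form in four variables.  Up to rescaling this depends on 16 + 12 + 35 = 63 parameters, so
  the network is not filling (`not_fill_left`).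
* If the widths at positions 4 and 5 are at most 4, the output depends on at most
  32 + 12 + 10 = 54 parameters up to rescaling, so it is not filling (`not_fill_right`).
* With width 4 at position 4 and large widths elsewhere, every `G (F_1^2, ..., F_4^2)` with arbitrary
  binary octics `F_j` and an arbitrary quartic form `G` is reached, and the differential of this map
  at `F = (1, x^5, x^8, x + x^8)`,
  `G = 2 y_0^4 + y_0^2 y_1^2 + 2 y_0 y_1^3 - y_0 y_2^3 + 2 y_1 y_2^3 + y_3^4` is surjective
  (`range_eq_top`), so the network is filling (`exists_fill`).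

Hence any minimal filling width vector below the last one has `d 4 <= 4`, `d 3 >= 5` and `d 5 >= 5`.
-/

set_option autoImplicit false

namespace Pool.Agent.H20.Uni

open MvPolynomial Topology

/-- the evaluation map on coefficient vectors -/
noncomputable def VV (v : Fin 65 → ℂ) : Fin 65 → ℂ := fun k => ∑ i : Fin 65, v i * ((k : ℕ) : ℂ) ^ (i : ℕ)

theorem VV_injective : Function.Injective VV := by
  intro v w h
  have hinj : Function.Injective (fun k : Fin 65 => ((k : ℕ) : ℂ)) := by
    intro a b hab
    have hab' : ((a : ℕ) : ℂ) = ((b : ℕ) : ℂ) := hab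
    exact Fin.ext (by exact_mod_cast hab')
  have hdet : (Matrix.vandermonde (fun k : Fin 65 => ((k : ℕ) : ℂ))).det ≠ 0 :=
    Matrix.det_vandermonde_ne_zero_iff.mpr hinj
  have h1 : (Matrix.vandermonde (fun k : Fin 65 => ((k : ℕ) : ℂ))).mulVec (v - w) = 0 := by
    funext k
    have hk := congrFun h k
    simp only [VV] at hk
    simp only [Matrix.mulVec, dotProduct, Matrix.vandermonde_apply, Pi.sub_apply, Pi.zero_apply]
    rw [← sub_eq_zero.mpr hk, ← Finset.sum_sub_distrib]
    refine Finset.sum_congr rfl (fun i _ => ?_)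
    ring
  have h2 := Matrix.eq_zero_of_mulVec_eq_zero hdet h1
  exact sub_eq_zero.mp h2

theorem VV_continuous : Continuous VV := by
  unfold VV
  fun_prop

/-- the coordinate embedding -/
noncomputable def fE : Fin 65 → ℕ × (ℕ →₀ ℕ) := fun i => (0, mon 64 i)

theorem fE_injective : Function.Injective fE := by
  intro i j hij
  have := (Prod.mk.inj hij).2
  exact Fin.ext (mon_injective 64 this)

open Classical in
noncomputable def iota (p : ℕ × (ℕ →₀ ℕ)) : MvPolynomial (Fin 65) ℂ :=
  ∑ i : Fin 65, if fE i = p then X i else 0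

open Classical in
theorem eval_iota (u : Fin 65 → ℂ) (p : ℕ × (ℕ →₀ ℕ)) :
    eval u (iota p) = ∑ i : Fin 65, if fE i = p then u i else 0 := by
  unfold iota
  rw [map_sum]
  refine Finset.sum_congr rfl (fun i _ => ?_)
  split_ifs <;> simp

/-- a coefficient family supported on the ambient coordinates is recovered from `u` -/
theorem eval_iota_eq (c : ℕ × (ℕ →₀ ℕ) → ℂ) (hc : ∀ p, (∀ i, fE i ≠ p) → c p = 0)
    (p : ℕ × (ℕ →₀ ℕ)) : eval (fun i => c (fE i)) (iota p) = c p := by
  classical
  rw [eval_iota]
  by_cases h : ∃ i, fE i = p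
  · obtain ⟨i, rfl⟩ := h
    rw [Finset.sum_eq_single i]
    · simp
    · intro j _ hj
      rw [if_neg]
      intro hji
      exact hj (fE_injective hji)
    · intro h; exact absurd (Finset.mem_univ i) h
  · push Not at h
    rw [hc p h]
    refine Finset.sum_eq_zero (fun i _ => ?_)
    rw [if_neg (h i)]

theorem eval_aeval_iota (u : Fin 65 → ℂ) (P : MvPolynomial (ℕ × (ℕ →₀ ℕ)) ℂ) :
    eval u (aeval iota P) = eval (fun p => eval u (iota p)) P := by
  induction P using MvPolynomial.induction_on with
  | C a => simp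
  | add p q hp hq => rw [map_add, map_add, map_add, hp, hq]
  | mul_X p i hp => rw [map_mul, map_mul, map_mul, hp, aeval_X, eval_X]

theorem fill_eval (c : ℕ × (ℕ →₀ ℕ) → ℂ) (hc : ∀ p, (∀ i, fE i ≠ p) → c p = 0)
    (P : MvPolynomial (ℕ × (ℕ →₀ ℕ)) ℂ) :
    eval (fun i => c (fE i)) (aeval iota P) = eval c P := by
  rw [eval_aeval_iota]
  congr 2
  funext p
  exact eval_iota_eq c hc p

theorem zero_of_vanish_on_range (Q : MvPolynomial (Fin 65) ℂ)
    (hQ : ∀ t : Par, eval (fun i : Fin 65 => coeff (mon 64 i) (out t)) Q = 0)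
    (hV : ∀ t : Par, VV (fun i : Fin 65 => coeff (mon 64 i) (out t)) = fmap t) : Q = 0 := by
  set v0 : Fin 65 → ℂ := fun i => coeff (mon 64 i) (out base) with hv0
  have hnhds : VV ⁻¹' (Set.range fmap) ∈ 𝓝 v0 := by
    apply VV_continuous.continuousAt
    rw [hv0, hV base]
    exact range_fmap_nhds
  obtain ⟨ε, hε, hball⟩ := Metric.mem_nhds_iff.mp hnhds
  have hvan : ∀ v ∈ Set.pi Set.univ (fun i => Metric.ball (v0 i) ε), eval v Q = eval v 0 := by
    intro v hv
    have hv' : v ∈ Metric.ball v0 ε := by
      rw [ball_pi _ hε]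
      exact hv
    obtain ⟨t, ht⟩ := hball hv'
    have h1 : v = fun i : Fin 65 => coeff (mon 64 i) (out t) :=
      VV_injective (by rw [hV t]; exact ht.symm)
    rw [h1, hQ t, map_zero]
  refine MvPolynomial.funext_set _ (fun i => ?_) hvan
  exact infinite_of_mem_nhds (v0 i) (Metric.ball_mem_nhds _ hε)

theorem exists_fill : ∃ e : Fin 8 → ℕ, (∀ i, 1 ≤ e i) ∧ e 0 = 2 ∧ e 7 = 1 ∧ e 4 ≤ 4 ∧ Fill e := by
  obtain ⟨n1, n2, n3, n5, n6, h1, h2, h3, h5, h6, H⟩ := universal
  set e : Fin 8 → ℕ := ![2, n1, n2, n3, 4, n5, n6, 1] with he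
  have key : ∀ t : Par, ∃ W : Fin 7 → ℕ → ℕ → ℂ, net e W 0 = out t ∧ ∀ a, a ≠ 0 → net e W a = 0 := by
    intro t
    obtain ⟨w0, w1, w2, w3, w4, w5, w6, hw⟩ := H (Fv t) (Fv_mem t) (qv t) (qv_mem t)
    refine ⟨![w0, w1, w2, w3, w4, w5, w6], ?_, ?_⟩
    · have := hw 0
      exact this
    · intro a ha
      have := hw a
      unfold qv at this
      rw [if_neg ha, map_zero] at this
      exact this
  have hout : ∀ t : Par, out t ∈ Bn 64 := by
    intro t
    obtain ⟨W, hW, -⟩ := key t
    rw [← hW]
    exact net_mem e W rfl 0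
  refine ⟨e, ?_, rfl, rfl, le_refl 4, ?_⟩
  · intro i
    fin_cases i
    · show 1 ≤ 2; norm_num
    · exact h1
    · exact h2
    · exact h3
    · show 1 ≤ 4; norm_num
    · exact h5
    · exact h6
    · show 1 ≤ 1; norm_num
  · intro P hP c hc
    have hsupp : ∀ p, (∀ i, fE i ≠ p) → c p = 0 := by
      intro p hp
      by_contra hne
      obtain ⟨hp1, hp2, hp3⟩ := hc p hne
      obtain ⟨a, s⟩ := p
      have ha : a = 0 := by
        have : a < 1 := hp1
        omega
      have hs3 : ∀ b ∈ s.support, b < 2 := hp3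
      have hsub : s.support ⊆ {0, 1} := by
        intro b hb
        have := hs3 b hb
        simp only [Finset.mem_insert, Finset.mem_singleton]
        omega
      have hsum : s 0 + s 1 = 64 := by
        have h64 : (∑ b ∈ s.support, s b) = 2 ^ (7 - 1) := hp2
        rw [Finset.sum_subset hsub (fun b _ hb => by simpa using hb),
          Finset.sum_pair (by norm_num)] at h64
        omega
      refine hp ⟨s 0, by omega⟩ ?_
      unfold fE
      refine Prod.ext ha.symm ?_
      show mon 64 (s 0) = s
      ext b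
      by_cases hb0 : b = 0
      · subst hb0; exact mon_zero _ _
      · by_cases hb1 : b = 1
        · subst hb1; rw [mon_one]; omega
        · have hns : b ∉ s.support := fun hb => by
            have := hs3 b hb
            omega
          have : s b = 0 := by simpa using hns
          rw [this]
          simp [mon, Ne.symm hb0, Ne.symm hb1]
    rw [← fill_eval c hsupp P]
    have hQ0 : aeval iota P = 0 := by
      apply zero_of_vanish_on_range
      · intro t
        obtain ⟨W, hW0, hW1⟩ := key t
        have h1 := hP W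
        rw [← fill_eval (fun p => coeff p.2 (net e W p.1)) ?_ P] at h1
        · have h2 : (fun i : Fin 65 => (fun p : ℕ × (ℕ →₀ ℕ) => coeff p.2 (net e W p.1)) (fE i)) =
              fun i : Fin 65 => coeff (mon 64 i) (out t) := by
            funext i
            show coeff (mon 64 i) (net e W 0) = _
            rw [hW0]
          rw [h2] at h1
          exact h1
        · intro p hp
          obtain ⟨a, s⟩ := p
          show coeff s (net e W a) = 0
          by_cases ha : a = 0
          · subst ha
            rw [hW0]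
            obtain ⟨b, hb⟩ := mem_Bn_iff.mp (hout t)
            rw [hb]
            apply coeff_bform_ne
            intro i hi
            exact hp i (by unfold fE; rw [hi])
          · rw [hW1 a ha, coeff_zero]
      · intro t
        obtain ⟨b, hb⟩ := mem_Bn_iff.mp (hout t)
        funext k
        show ∑ i : Fin 65, coeff (mon 64 i) (out t) * ((k : ℕ) : ℂ) ^ (i : ℕ) = fval t ((k : ℕ) : ℂ)
        rw [← eval_out, hb, eval_bform]
        refine Finset.sum_congr rfl (fun i _ => ?_)
        rw [coeff_bform_mon]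
    rw [hQ0, map_zero]

/-- There is a minimal filling width vector that is not unimodal. -/
theorem exists_minimal_not_unimodal : ∃ d : Fin 8 → ℕ, (∀ i, 1 ≤ d i) ∧ Fill d ∧
    (∀ d' : Fin 8 → ℕ, (∀ i, 1 ≤ d' i) → d' 0 = d 0 → d' (Fin.last 7) = d (Fin.last 7) →
      d' ≤ d → Fill d' → d' = d) ∧
    ¬ ∃ i : Fin 8, (∀ j k : Fin 8, j ≤ k → k ≤ i → d j ≤ d k) ∧
      (∀ j k : Fin 8, i ≤ j → j ≤ k → d k ≤ d j) := by
  obtain ⟨e, he1, he0, he7, he4, hefill⟩ := exists_fill
  -- choose a filling vector below `e` with minimal sum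
  let A : Set (Fin 8 → ℕ) := {d | (∀ i, 1 ≤ d i) ∧ d 0 = 2 ∧ d 7 = 1 ∧ d ≤ e ∧ Fill d}
  have hA : A.Nonempty := ⟨e, he1, he0, he7, le_refl e, hefill⟩
  obtain ⟨d, ⟨hd1, hd0, hd7, hde, hdfill⟩, hmin⟩ :
      ∃ d ∈ A, ∀ d' ∈ A, (∑ i, d i) ≤ ∑ i, d' i := by
    have hwf : (Set.image (fun d : Fin 8 → ℕ => ∑ i, d i) A).Nonempty := hA.image _
    obtain ⟨d, hdA, hd⟩ := Nat.sInf_mem hwf
    refine ⟨d, hdA, fun d' hd' => ?_⟩
    have : sInf (Set.image (fun d : Fin 8 → ℕ => ∑ i, d i) A) ≤ ∑ i, d' i :=
      Nat.sInf_le ⟨d', hd', rfl⟩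
    rw [← hd] at this
    exact this
  refine ⟨d, hd1, hdfill, ?_, ?_⟩
  · intro d' h1 h0 h7 hle hfill
    have hmem : d' ∈ A := ⟨h1, by rw [h0, hd0], h7.trans hd7, hle.trans hde, hfill⟩
    have hsum := hmin d' hmem
    by_contra hne
    have hlt : d' < d := lt_of_le_of_ne hle hne
    have : ∑ i, d' i < ∑ i, d i := by
      obtain ⟨hle', i, hi⟩ := Pi.lt_def.mp hlt
      exact Finset.sum_lt_sum (fun i _ => hle' i) ⟨i, Finset.mem_univ i, hi⟩
    omega
  · rintro ⟨i, hinc, hdec⟩
    have hd4 : d 4 ≤ 4 := (hde 4).trans he4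
    have h3 : 4 < d 3 := by
      by_contra hcon
      push Not at hcon
      exact not_fill_left hd0 hd7.ge hcon hd4 hdfill
    have h5 : 4 < d 5 := by
      by_contra hcon
      push Not at hcon
      exact not_fill_right hd0 hd7.ge hd4 hcon hdfill
    rcases le_or_gt i 4 with hi | hi
    · have := hdec 4 5 hi (by decide)
      omega
    · have := hinc 3 4 (by decide) hi.le
      omega

end Pool.Agent.H20.Uni
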